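import Mathlib

/-!
# Relations between the translates of a real valued odd function

A finite group `G` acts transitively on a finite set `X` with an involution `c` without fixed points
that commutes with `G`, `v` is an odd real valued function on `X` whose translates separate points.
We study the odd integral functions `n` which are orthogonal to all translates of `v`.
-/

set_option autoImplicit false
set_option linter.unusedSectionVars false

namespace Pool.Agent.V1141.SL

open Finset

/-- The standing assumptions. -/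
structure Slp (G : Type*) {X : Type*} [Group G] [MulAction G X] (c : X → X) (v : X → ℝ) :
    Prop where
  cc : ∀ x, c (c x) = x
  cg : ∀ (g : G) (x : X), c (g • x) = g • c x
  ne : ∀ x, c x ≠ x
  odd : ∀ x, v (c x) = - v x
  trans : ∀ x y : X, ∃ g : G, g • x = y
  sep : ∀ x y, (∀ g : G, v (g • x) = v (g • y)) → x = y

/-- Odd integral functions which are orthogonal to all translates of `v`. -/
def Rel (G : Type*) {X : Type*} [Group G] [MulAction G X] [Fintype X] (c : X → X) (v : X → ℝ)
    (n : X → ℤ) : Prop :=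
  (∀ x, n (c x) = - n x) ∧ ∀ g : G, ∑ x, (n x : ℝ) * v (g • x) = 0

/-- The set `B` is a class of a norm relation. -/
structure NormBlock (G : Type*) {X : Type*} [Group G] [MulAction G X] (c : X → X) (v : X → ℝ)
    (B : Finset X) : Prop where
  nonempty : B.Nonempty
  block : ∀ g : G, ∀ x ∈ B, g • x ∈ B → ∀ y ∈ B, g • y ∈ B
  disj : ∀ x ∈ B, c x ∉ B
  zero : ∀ g : G, ∑ x ∈ B, v (g • x) = 0

variable {G X : Type*} [Group G] [MulAction G X] [Fintype X] {c : X → X} {v : X → ℝ}

theorem Rel.zero : Rel G c v (fun _ => 0) := by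
  refine ⟨fun x => by simp, fun g => by simp⟩

theorem Rel.add {n n' : X → ℤ} (h : Rel G c v n) (h' : Rel G c v n') :
    Rel G c v (fun x => n x + n' x) := by
  refine ⟨fun x => ?_, fun g => ?_⟩
  · have h1 := h.1 x
    have h2 := h'.1 x
    simp only
    omega
  · simp only [Int.cast_add, add_mul, Finset.sum_add_distrib, h.2 g, h'.2 g, add_zero]

theorem Rel.neg {n : X → ℤ} (h : Rel G c v n) : Rel G c v (fun x => - n x) := by
  refine ⟨fun x => ?_, fun g => ?_⟩
  · have h1 := h.1 x
    simp only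
    omega
  · simp only [Int.cast_neg, neg_mul, Finset.sum_neg_distrib, h.2 g, neg_zero]

theorem Rel.sub {n n' : X → ℤ} (h : Rel G c v n) (h' : Rel G c v n') :
    Rel G c v (fun x => n x - n' x) := by
  refine ⟨fun x => ?_, fun g => ?_⟩
  · have h1 := h.1 x
    have h2 := h'.1 x
    simp only
    omega
  · simp only [Int.cast_sub, sub_mul, Finset.sum_sub_distrib, h.2 g, h'.2 g, sub_zero]

section
variable (hS : Slp G c v)
include hS

theorem c_inj {x y : X} (h : c x = c y) : x = y := by
  rw [← hS.cc x, h, hS.cc]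

theorem Rel.translate {n : X → ℤ} (h : Rel G c v n) (g : G) : Rel G c v (fun x => n (g • x)) := by
  refine ⟨fun x => ?_, fun k => ?_⟩
  · simp only
    rw [← hS.cg, h.1]
  · have h1 := h.2 (k * g⁻¹)
    rw [← h1]
    refine Fintype.sum_equiv (MulAction.toPerm g) _ _ fun x => ?_
    simp only [MulAction.toPerm_apply]
    rw [smul_smul, inv_mul_cancel_right]

/-- sums of even functions which vanish at the zeros of `v` -/
theorem sum_even {f : X → ℝ} (hf : ∀ x, f (c x) = f x) (h0 : ∀ x, v x = 0 → f x = 0) :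
    ∑ x, f x = 2 * ∑ x ∈ univ.filter (fun x => 0 < v x), f x := by
  classical
  have h1 : ∀ x, f x = (if 0 < v x then f x else 0) + (if v x < 0 then f x else 0) := by
    intro x
    rcases lt_trichotomy (v x) 0 with h | h | h
    · rw [if_neg (not_lt.2 h.le), if_pos h, zero_add]
    · rw [if_neg (by rw [h]; exact lt_irrefl _), if_neg (by rw [h]; exact lt_irrefl _), h0 x h,
        add_zero]
    · rw [if_pos h, if_neg (not_lt.2 h.le), add_zero]
  rw [Finset.sum_congr rfl fun x _ => h1 x, Finset.sum_add_distrib, two_mul]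
  congr 1
  · rw [Finset.sum_filter]
  · rw [Finset.sum_filter]
    refine Fintype.sum_equiv ⟨c, c, hS.cc, hS.cc⟩ _ _ fun x => ?_
    change _ = if 0 < v (c x) then f (c x) else 0
    rw [hS.odd, hf]
    by_cases h : v x < 0
    · rw [if_pos h, if_pos (by linarith)]
    · rw [if_neg h, if_neg (by linarith)]

/-- the relation in terms of the points with positive value -/
theorem rel_sum {n : X → ℤ} (h : Rel G c v n) (g : G) :
    ∑ x ∈ univ.filter (fun x => 0 < v x), (n (g • x) : ℝ) * v x = 0 := by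
  have h1 := (h.translate hS g).2 1
  simp only [one_smul] at h1
  rw [sum_even hS (f := fun x => (n (g • x) : ℝ) * v x)] at h1
  · linarith
  · intro x
    rw [← hS.cg, h.1, hS.odd]
    push_cast
    ring
  · intro x hx
    rw [hx, mul_zero]

/-- relations which vanish on the translates of a point vanish -/
theorem zero_of_orbit {n : X → ℤ} (x : X) (h : ∀ g : G, n (g • x) = 0) (y : X) : n y = 0 := by
  obtain ⟨g, rfl⟩ := hS.trans x y
  exact h g

/-- the sum of the squares of the values at the translates of a point -/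
theorem sum_sq [Fintype G] (n : X → ℤ) (x y : X) :
    ∑ g : G, (n (g • x) : ℝ) ^ 2 = ∑ g : G, (n (g • y) : ℝ) ^ 2 := by
  obtain ⟨h, rfl⟩ := hS.trans x y
  refine Fintype.sum_equiv (Equiv.mulRight h⁻¹) _ _ fun g => ?_
  rw [Equiv.coe_mulRight, mul_smul, inv_smul_smul]

/-- **Dominant values**: if the value at `x₀` is at least the sum of all the other positive values,
then all relations satisfy `n (c (g • x)) = n (g • x₀)` for the other points `x` with positive value,
and relations vanish if the inequality is strict. -/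
theorem dom_key [Fintype G] [DecidableEq X] (x₀ : X) (hx₀ : 0 < v x₀)
    (hdom : ∑ x ∈ univ.filter (fun x => 0 < v x), v x ≤ 2 * v x₀) {n : X → ℤ}
    (hn : Rel G c v n) :
    (∀ g : G, ∀ x, x ≠ x₀ → 0 < v x → n (c (g • x)) = n (g • x₀)) ∧
      (∑ x ∈ univ.filter (fun x => 0 < v x), v x < 2 * v x₀ → ∀ y, n y = 0) := by
  set P : Finset X := univ.filter (fun x => 0 < v x) with hP
  have hxP : x₀ ∈ P := by simp [hP, hx₀]
  set P' : Finset X := P.erase x₀ with hP'
  have hP'mem : ∀ x, x ∈ P' ↔ x ≠ x₀ ∧ 0 < v x := by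
    intro x
    simp [hP', hP]
  have hsplit : ∀ f : X → ℝ, ∑ x ∈ P, f x = f x₀ + ∑ x ∈ P', f x := fun f =>
    (Finset.add_sum_erase P f hxP).symm
  set S : ℝ := ∑ x ∈ P', v x with hSdef
  have hSle : S ≤ v x₀ := by
    rw [hsplit] at hdom
    linarith
  set T : ℝ := ∑ g : G, (n (g • x₀) : ℝ) ^ 2 with hT
  have hT0 : 0 ≤ T := Finset.sum_nonneg fun g _ => sq_nonneg _
  have hrel : ∀ g : G, ∑ x ∈ P', (n (g • x) : ℝ) * v x = - (n (g • x₀) * v x₀) := by
    intro g
    have h1 := rel_sum hS hn g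
    rw [hsplit] at h1
    linarith
  -- the sum of squares for one `g`
  have hexp : ∀ g : G, ∑ x ∈ P', v x * ((n (c (g • x)) : ℝ) - n (g • x₀)) ^ 2 =
      ∑ x ∈ P', v x * (n (g • x) : ℝ) ^ 2 - (2 * v x₀ - S) * (n (g • x₀) : ℝ) ^ 2 := by
    intro g
    have h1 : ∀ x ∈ P', v x * ((n (c (g • x)) : ℝ) - n (g • x₀)) ^ 2 =
        v x * (n (g • x) : ℝ) ^ 2 + 2 * (n (g • x₀) : ℝ) * ((n (g • x) : ℝ) * v x) +
          v x * (n (g • x₀) : ℝ) ^ 2 := by
      intro x _
      rw [hn.1]
      push_cast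
      ring
    rw [Finset.sum_congr rfl h1, Finset.sum_add_distrib, Finset.sum_add_distrib, ← Finset.mul_sum,
      hrel, ← Finset.sum_mul]
    ring
  have hsum : ∑ g : G, ∑ x ∈ P', v x * ((n (c (g • x)) : ℝ) - n (g • x₀)) ^ 2 =
      2 * (S - v x₀) * T := by
    rw [Finset.sum_congr rfl fun g _ => hexp g, Finset.sum_sub_distrib, Finset.sum_comm,
      ← Finset.mul_sum]
    have h1 : ∀ x ∈ P', ∑ g : G, v x * (n (g • x) : ℝ) ^ 2 = v x * T := by
      intro x _
      rw [← Finset.mul_sum, sum_sq hS n x x₀]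
    rw [Finset.sum_congr rfl h1, ← Finset.sum_mul]
    ring
  have hnn : ∀ g : G, 0 ≤ ∑ x ∈ P', v x * ((n (c (g • x)) : ℝ) - n (g • x₀)) ^ 2 := by
    intro g
    refine Finset.sum_nonneg fun x hx => mul_nonneg ((hP'mem x).1 hx).2.le (sq_nonneg _)
  constructor
  · intro g x hx hvx
    have h1 : ∑ g : G, ∑ x ∈ P', v x * ((n (c (g • x)) : ℝ) - n (g • x₀)) ^ 2 = 0 := by
      refine le_antisymm ?_ (Finset.sum_nonneg fun g _ => hnn g)
      rw [hsum]
      nlinarith
    have h2 := (Finset.sum_eq_zero_iff_of_nonneg fun g _ => hnn g).1 h1 g (Finset.mem_univ g)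
    have h3 := (Finset.sum_eq_zero_iff_of_nonneg fun x hx =>
      mul_nonneg ((hP'mem x).1 hx).2.le (sq_nonneg _)).1 h2 x ((hP'mem x).2 ⟨hx, hvx⟩)
    have h4 : ((n (c (g • x)) : ℝ) - n (g • x₀)) ^ 2 = 0 :=
      (mul_eq_zero.1 h3).resolve_left hvx.ne'
    have h5 : (n (c (g • x)) : ℝ) = n (g • x₀) := by
      have := pow_eq_zero_iff (two_ne_zero) |>.1 h4
      linarith
    exact_mod_cast h5
  · intro hlt
    rw [hsplit] at hlt
    have h1 : 0 ≤ 2 * (S - v x₀) * T := by
      rw [← hsum]
      exact Finset.sum_nonneg fun g _ => hnn g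
    have h2 : T = 0 := by
      have h3 : S - v x₀ < 0 := by linarith
      nlinarith
    intro y
    refine zero_of_orbit hS x₀ (fun g => ?_) y
    have h3 := (Finset.sum_eq_zero_iff_of_nonneg fun g _ => sq_nonneg _).1 h2 g (Finset.mem_univ g)
    have h4 := pow_eq_zero_iff (two_ne_zero) |>.1 h3
    exact_mod_cast h4

/-- **Dominant values**: a relation comes from a norm relation. -/
theorem normBlock_dom [Fintype G] [DecidableEq X] (x₀ : X) (hx₀ : 0 < v x₀)
    (hdom : ∑ x ∈ univ.filter (fun x => 0 < v x), v x ≤ 2 * v x₀) {n : X → ℤ}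
    (hn : Rel G c v n) {z₀ : X} (h0 : n z₀ ≠ 0) : ∃ B, NormBlock G c v B := by
  classical
  let B : Finset X := univ.filter fun y => ∀ n' : X → ℤ, Rel G c v n' → n' y = n' z₀
  have hB : ∀ y, y ∈ B ↔ ∀ n' : X → ℤ, Rel G c v n' → n' y = n' z₀ := by
    intro y
    simp [B]
  have hsep : ∀ x, ∃ n' : X → ℤ, Rel G c v n' ∧ n' x ≠ 0 := by
    intro x
    obtain ⟨g, hg⟩ := hS.trans x z₀
    refine ⟨fun y => n (g • y), hn.translate hS g, ?_⟩
    change n (g • x) ≠ 0
    rwa [hg]
  have heq : ∑ x ∈ univ.filter (fun x => 0 < v x), v x = 2 * v x₀ := by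
    rcases hdom.lt_or_eq with h | h
    · exact absurd ((dom_key hS x₀ hx₀ hdom hn).2 h z₀) h0
    · exact h
  refine ⟨B, ⟨z₀, (hB z₀).2 fun n' _ => rfl⟩, ?_, ?_, ?_⟩
  · intro g x hx hgx y hy
    rw [hB] at hx hgx hy ⊢
    intro n' hn'
    have h1 := hn'.translate hS g
    have h2 : n' (g • y) = n' (g • z₀) := hy _ h1
    have h3 : n' (g • x) = n' (g • z₀) := hx _ h1
    rw [h2, ← h3, hgx n' hn']
  · intro x hx hcx
    rw [hB] at hx hcx
    obtain ⟨n', hn', hx'⟩ := hsep x
    have h1 := hcx n' hn'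
    rw [hn'.1, ← hx n' hn'] at h1
    omega
  · intro g
    -- the sum over `g • B`
    have h1 : ∑ x ∈ B, v (g • x) = ∑ y, (if g⁻¹ • y ∈ B then v y else 0) := by
      rw [← Finset.sum_filter]
      refine Finset.sum_bij (fun x _ => g • x) (fun x hx => ?_) (fun x _ x' _ h => ?_)
        (fun y hy => ?_) (fun x _ => rfl)
      · simpa using hx
      · exact MulAction.injective g h
      · exact ⟨g⁻¹ • y, (Finset.mem_filter.1 hy).2, smul_inv_smul g y⟩
    let f : X → ℝ := fun y => ((if g⁻¹ • y ∈ B then 1 else 0) -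
      (if g⁻¹ • c y ∈ B then 1 else 0)) * v y
    have h2 : ∑ y, f y = 2 * ∑ x ∈ B, v (g • x) := by
      have h3 : ∀ y, f y = (if g⁻¹ • y ∈ B then v y else 0) +
          (if g⁻¹ • c y ∈ B then v (c y) else 0) := by
        intro y
        simp only [f, hS.odd]
        split_ifs <;> ring
      rw [Finset.sum_congr rfl fun y _ => h3 y, Finset.sum_add_distrib, h1, two_mul]
      congr 1
      exact Fintype.sum_equiv ⟨c, c, hS.cc, hS.cc⟩ _ _ fun y => rfl
    have h4 := sum_even hS (f := f) (fun y => by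
      simp only [f, hS.cc, hS.odd]
      ring) (fun y hy => by simp only [f, hy, mul_zero])
    rw [h2] at h4
    have h5 : ∑ x ∈ B, v (g • x) = ∑ x ∈ univ.filter (fun x => 0 < v x), f x := by linarith
    rw [h5]
    have hxP : x₀ ∈ univ.filter (fun x => 0 < v x) := by simp [hx₀]
    rw [← Finset.add_sum_erase _ _ hxP]
    have h6 : ∀ x ∈ (univ.filter (fun x => 0 < v x)).erase x₀, f x =
        - (((if g⁻¹ • x₀ ∈ B then 1 else 0) - (if g⁻¹ • c x₀ ∈ B then 1 else 0)) * v x) := by
      intro x hx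
      have hx1 : x ≠ x₀ := (Finset.mem_erase.1 hx).1
      have hx2 : 0 < v x := by
        have := (Finset.mem_erase.1 hx).2
        simpa using this
      have e1 : ∀ n' : X → ℤ, Rel G c v n' → n' (g⁻¹ • c x) = n' (g⁻¹ • x₀) := by
        intro n' hn'
        rw [← hS.cg]
        exact (dom_key hS x₀ hx₀ hdom hn').1 g⁻¹ x hx1 hx2
      have e2 : g⁻¹ • c x ∈ B ↔ g⁻¹ • x₀ ∈ B := by
        rw [hB, hB]
        exact ⟨fun h n' hn' => by rw [← e1 n' hn', h n' hn'],
          fun h n' hn' => by rw [e1 n' hn', h n' hn']⟩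
      have e3 : g⁻¹ • x ∈ B ↔ g⁻¹ • c x₀ ∈ B := by
        rw [hB, hB]
        have e4 : ∀ n' : X → ℤ, Rel G c v n' → n' (g⁻¹ • x) = n' (g⁻¹ • c x₀) := by
          intro n' hn'
          have h7 := e1 n' hn'
          rw [← hS.cg, hn'.1] at h7
          rw [← hS.cg, hn'.1]
          omega
        exact ⟨fun h n' hn' => by rw [← e4 n' hn', h n' hn'],
          fun h n' hn' => by rw [e4 n' hn', h n' hn']⟩
      simp only [f, e2, e3]
      ring
    rw [Finset.sum_congr rfl h6, Finset.sum_neg_distrib, ← Finset.mul_sum]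
    have h7 : ∑ x ∈ (univ.filter (fun x => 0 < v x)).erase x₀, v x = v x₀ := by
      rw [← Finset.add_sum_erase _ _ hxP] at heq
      linarith
    rw [h7]
    simp only [f]
    ring

end

end Pool.Agent.V1141.SL
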