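import Pool.Agent.Y103.Hk.Defs3

/-!
# Frobenius numbers with arbitrary slopes: definitions
-/

set_option autoImplicit false

open NumberField

namespace Pool.Agent.V1141.SL

/-- All complex absolute values of `α` are one, `p ^ a α` is an algebraic integer, and all powers
of `α` generate the field. -/
structure IsWeilUnit (p a : ℕ) {E : Type} [Field E] [NumberField E] (α : E) : Prop where
  unitary : ∀ φ : E →+* ℂ, ‖φ α‖ = 1
  integral : IsIntegral ℤ ((p : E) ^ a * α)
  powers : ∀ s : ℕ, 0 < s → IntermediateField.adjoin ℚ {α ^ s} = ⊤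

/-- The largest `p`-adic slope `log ‖σ₀ α‖` is greater than the sum of all the other positive
slopes (twice the largest slope is greater than the sum of all positive slopes); or it is equal to
this sum, and no power of a norm of `α` to a subfield on which the complex conjugation is not trivial
is equal to one. -/
def HasDominantSlope (p : ℕ) [Fact p.Prime] {E : Type} [Field E] [NumberField E] [IsCMField E]
    (α : E) : Prop :=
  ∃ σ₀ : E →+* PadicAlgCl p,
    ∑ σ : E →+* PadicAlgCl p, max (Real.log ‖σ α‖) 0 < 2 * Real.log ‖σ₀ α‖ ∨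
    (∑ σ : E →+* PadicAlgCl p, max (Real.log ‖σ α‖) 0 = 2 * Real.log ‖σ₀ α‖ ∧
      Y103.Hk.NoNormRelation α)

open Classical in
/-- There are a subfield `F` of `E` on which the complex conjugation is trivial, with
`[E : F] = 2 ℓ ^ k`, and an embedding `ι₀` of `F` in the algebraic closure of `ℚ_p`, such that all
slopes are integral multiples `w σ` of one number (`‖σ α‖ = P ^ w σ`), the integer `w σ` is
divisible by `ℓ` if `σ` does not extend `ι₀`, and the sum of the positive integers `w σ` for the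
extensions `σ` of `ι₀` is odd, and less than `ℓ` if `ℓ` is not two. -/
def HasOddSlopeSum (p : ℕ) [Fact p.Prime] (ℓ : ℕ) {E : Type} [Field E] [NumberField E]
    [IsCMField E] (α : E) : Prop :=
  ∃ (F : IntermediateField ℚ E) (ι₀ : F →+* PadicAlgCl p) (k : ℕ) (P : ℝ)
    (w : (E →+* PadicAlgCl p) → ℤ),
    (∀ x ∈ F, IsCMField.complexConj E x = x) ∧ Module.finrank F E = 2 * ℓ ^ k ∧ 1 < P ∧
    (∀ σ, ‖σ α‖ = P ^ w σ) ∧ (∀ σ, σ.comp (algebraMap F E) ≠ ι₀ → (ℓ : ℤ) ∣ w σ) ∧
    Odd (∑ σ with σ.comp (algebraMap F E) = ι₀ ∧ 0 < w σ, w σ) ∧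
    (ℓ = 2 ∨ ∑ σ with σ.comp (algebraMap F E) = ι₀ ∧ 0 < w σ, w σ < ℓ)

end Pool.Agent.V1141.SL
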