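import Pool.Agent.V1141.SL.Cls
import Pool.Agent.Y103.Sq.Final
import Pool.Agent.Y103.Hk.Main2

/-!
# The Tate conjecture for products of varieties with Frobenius numbers without relations
-/

set_option autoImplicit false
set_option linter.unusedSectionVars false

open CategoryTheory AlgebraicGeometry NumberField

universe u v

namespace Pool.Agent.V1141.SL

open Pool.Agent.H914 Pool.Agent.H914.VarClass Pool.Agent.H914.VarClass.Obj
  Pool.Agent.H914.WeilCohomology Pool.Agent.H281R3.HT Pool.Agent.W552 Pool.Agent.W534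
  Pool.Agent.W458.RK Pool.Agent.W458.MF Pool.Agent.TH132.A Pool.Agent.W536.RR
  Pool.Agent.TH121.KT Pool.Agent.Y138.KC Pool.Agent.W290.MF Pool.Agent.Y138.KH
  Pool.Agent.Y103.Hk Pool.Agent.Y103.Sh Pool.Agent.Y103.Sq

section cond

variable {r : ℕ} {E : Fin r → Type} [∀ i, Field (E i)] [∀ i, NumberField (E i)]
  [∀ i, IsCMField (E i)] {p : ℕ} [Fact p.Prime] {ι : Qb →+* PadicAlgCl p} {α : ∀ i, E i}
  {n : Fin r → ℕ} {𝓛 : Set (IntermediateField ℚ Qb)} {L₀ : Fin r → IntermediateField ℚ Qb}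

/-- **The conditions on a family.** -/
theorem famCond_noRel (hα : ∀ i, NoRel ι (α i))
    (hL₀ : ∀ i, IsStable (L₀ i) ∧ SmallIntersection (E i) (L₀ i) (n i))
    (h𝓛 : ∀ i, ∀ L ∈ 𝓛, IsAllowed (E i) (L₀ i) L)
    (hE : ∀ i j, i < j → IsAllowed (E i) (L₀ i) (galoisClosure (E j))) :
    FamCond ι α n 𝓛 (fun i => galoisClosure (E i)) L₀ where
  rel i := hα i
  slope _ σ := slope_closure σ
  stable i := (hL₀ i).1
  large i := largeOrbits_of (hL₀ i).1 (hL₀ i).2
  fields i L hL := allowed_conj (h𝓛 i L hL)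
  pair i j hij := allowed_conj (hE i j hij)

end cond

variable {k : Type u} [Field k] {𝒱 : VarClass k} {ops : CycleOps 𝒱}
  {W : WeilCohomology.{u, v} ops} {p : ℕ} [Fact p.Prime] {Φ : FrobSystem W p}
  {ι : Qb →+* PadicAlgCl p}

/-- a variety with a number without relations which has multiplicity one, or satisfies the Tate
conjecture for the square -/
theorem weilNumber_noRel {Y : 𝒱.Obj} {e : ℕ} {E : Type} [Field E] [NumberField E] [IsCMField E]
    {α : E} (hR : NoRel ι α) (hX : IsSpannedByNumber Φ Y e α)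
    (h : (∀ σ, OnLine W.K (letters Φ Y e α σ)) ∨ TateSquare Φ Y) : HasWeilNumber Φ Y e α := by
  refine ⟨hX.1, hX.sp, ?_⟩
  rcases h with h | h
  · exact tate_square hR.unitary (fun s hs => gen_of_noRel hR s hs) hX.1 hX.sp h
  · exact tate_of_square h

variable {r : ℕ} {X : Fin r → 𝒱.Obj} {e : Fin r → ℕ} {E : Fin r → Type} [∀ i, Field (E i)]
  [∀ i, NumberField (E i)] [∀ i, IsCMField (E i)] {α : ∀ i, E i} {Z : 𝒱.Obj}

/-- **The Tate conjecture for products of varieties with numbers without relations**, and for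
their products with other varieties. -/
theorem main_tate [IsAlgClosed W.K] (hR : ∀ i, NoRel ι (α i))
    (hX : ∀ i, IsSpannedByNumber Φ (X i) (e i) (α i))
    (hX2 : ∀ i, (∀ σ, OnLine W.K (letters Φ (X i) (e i) (α i) σ)) ∨ TateSquare Φ (X i))
    {n : Fin r → ℕ} (hZ : IsProductOfCopies W X n Z) {𝓛 : Set (IntermediateField ℚ Qb)}
    {L₀ : Fin r → IntermediateField ℚ Qb}
    (hL₀ : ∀ i, IsStable (L₀ i) ∧ SmallIntersection (E i) (L₀ i) (n i))
    (h𝓛 : ∀ i, ∀ L ∈ 𝓛, IsAllowed (E i) (L₀ i) L)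
    (hE : ∀ i j, i < j → IsAllowed (E i) (L₀ i) (galoisClosure (E j))) :
    (∀ c, SemisimpleTateIn Φ Z c) ∧ HomEqNum W Z ∧ InjectiveCycleMap W Z ∧
    ∀ U : 𝒱.Obj, HasSlopes Φ ι 𝓛 U →
      (HasCycle W Z 0 → (HomEqNum W (Z.prod U) ↔ HomEqNum W U)) ∧ ∀ c,
      (TateIn Φ (Z.prod U) c ↔ ∀ i ≤ c, HasCycle W Z i → TateIn Φ U (c - i)) ∧
      (SemisimpleTateIn Φ (Z.prod U) c ↔
        ∀ i ≤ c, HasCycle W Z i → SemisimpleTateIn Φ U (c - i)) := by
  have hp := (Fact.out : p.Prime).one_lt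
  have hT : ∀ i, HasWeilNumber Φ (X i) (e i) (α i) := fun i =>
    weilNumber_noRel (hR i) (hX i) (hX2 i)
  have hTT := tateTimesP_fam hT hZ (famCond_noRel hR hL₀ h𝓛 hE)
  have hPpow : ∀ (ν : W.K) (n : ℕ), 0 < n → IsSlopeProduct ι 𝓛 ν → IsSlopeProduct ι 𝓛 (ν ^ n) :=
    fun ν n _ h => inM_pow ν n h
  have hD := homEqNum_of_tateTimesP hp hTT (inM_one _)
  refine ⟨fun c => Y138.TU.semisimple_of_times hp hTT (inM_one _) c, hD,
    injective_of_homEqNum hD, fun U hU => ⟨fun h0 => ?_, fun c => ?_⟩⟩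
  · exact homEqNum_prod_iff (fun z hz => tens_of_tateTimesP hp hTT (inM_one _) hPpow hU hz)
      hD (one_ne_of_hasCycle h0)
  simp only [hasCycle_iff]
  have key : ∀ b, Y138.TU.TateK Φ (Z.prod U) b c ↔
      ∀ i ≤ c, (∃ x, Z.IsCyc i x ∧ ¬ HomEq W x 0) → Y138.TU.TateK Φ U b (c - i) := fun b =>
    Y138.TU.tateK_prod_iff hp hTT (inM_one _) hPpow hU
  refine ⟨?_, ?_⟩
  · rw [Y138.TU.tateIn_iff, key 1]
    simp only [Y138.TU.tateIn_iff]
  · simp only [Y138.TU.semisimple_iff, key]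
    constructor
    · intro h i hi hx a
      exact h a i hi hx
    · intro h a i hi hx
      exact h i hi hx a

end Pool.Agent.V1141.SL
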