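import Pool.Agent.V1141.SL.Pole

/-!
# The formula of Tate for the orders of the poles, without relations
-/

set_option autoImplicit false
set_option linter.unusedSectionVars false

open CategoryTheory AlgebraicGeometry NumberField

universe u v

namespace Pool.Agent.V1141.SL

open Pool.Agent.H914 Pool.Agent.H914.VarClass Pool.Agent.H914.VarClass.Obj
  Pool.Agent.H914.WeilCohomology Pool.Agent.H281R3.HT Pool.Agent.W552 Pool.Agent.W534
  Pool.Agent.W458.RK Pool.Agent.W458.MF Pool.Agent.TH132.A Pool.Agent.W536.RR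
  Pool.Agent.TH121.KT Pool.Agent.Y138.KC Pool.Agent.W290.MF Pool.Agent.Y138.KH
  Pool.Agent.Y103.Hk Pool.Agent.Y103.Sh Pool.Agent.Y103.Sq Pool.Agent.TH132.P

variable {k : Type u} [Field k] {𝒱 : VarClass k} {ops : CycleOps 𝒱}
  {W : WeilCohomology.{u, v} ops}

section

variable {p : ℕ} {Φ : FrobSystem W p} {σ : W.K →+* ℂ} {U : 𝒱.Obj}

lemma eigRH_of_riemannHyp [IsAlgClosed W.K] (h : RiemannHyp Φ σ U) : EigRH Φ σ U := by
  intro i y hy hy0 s hs ν hν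
  have h1 : (⟨y, hy⟩ : W.gr U i) ∈ (frobGr Φ U s i).maxGenEigenspace ν := gen_frobGr hν
  have h2 : (frobOn Φ U s i).HasEigenvalue ν :=
    hasEigenvalue_of_gen h1 (fun h => hy0 (congrArg Subtype.val h))
  refine h s hs i (σ ν) ?_
  rw [frobPoly_eq]
  rw [Module.End.hasEigenvalue_iff_isRoot_charpoly] at h2
  exact h2.map

end

variable {p : ℕ} [Fact p.Prime] {Φ : FrobSystem W p} {σ : W.K →+* ℂ} {U : 𝒱.Obj}
  {ι : Qb →+* PadicAlgCl p}
  {r : ℕ} {X : Fin r → 𝒱.Obj} {e : Fin r → ℕ} {E : Fin r → Type} [∀ i, Field (E i)]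
  [∀ i, NumberField (E i)] [∀ i, IsCMField (E i)] {α : ∀ i, E i} {Z : 𝒱.Obj}

/-- the Riemann hypothesis for the products of copies -/
theorem eigRH_copies [IsAlgClosed W.K] (hu : ∀ i, ∀ φ : E i →+* ℂ, ‖φ (α i)‖ = 1)
    (hX : ∀ i, IsSpannedByNumber Φ (X i) (e i) (α i)) {n : Fin r → ℕ}
    (hZ : IsProductOfCopies W X n Z) : EigRH Φ σ Z := by
  induction hZ with
  | alg h => exact eigRH_alg h
  | base i => exact eigRH_number (hu i) (hX i).1 (hX i).sp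
  | prod _ _ h1 h2 => exact eigRH_prod h1 h2

/-- **The formula of Tate for products of varieties with numbers without relations**, and for
their products with other varieties. -/
theorem main_pole [IsAlgClosed W.K] (σ : W.K →+* ℂ) (hR : ∀ i, NoRel ι (α i))
    (hX : ∀ i, IsSpannedByNumber Φ (X i) (e i) (α i))
    (hX2 : ∀ i, (∀ σ, OnLine W.K (letters Φ (X i) (e i) (α i) σ)) ∨ TateSquare Φ (X i))
    {n : Fin r → ℕ} (hZ : IsProductOfCopies W X n Z) {𝓛 : Set (IntermediateField ℚ Qb)}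
    {L₀ : Fin r → IntermediateField ℚ Qb}
    (hL₀ : ∀ i, IsStable (L₀ i) ∧ SmallIntersection (E i) (L₀ i) (n i))
    (h𝓛 : ∀ i, ∀ L ∈ 𝓛, IsAllowed (E i) (L₀ i) L)
    (hE : ∀ i j, i < j → IsAllowed (E i) (L₀ i) (galoisClosure (E j))) :
    RiemannHyp Φ σ Z ∧ (∀ j ≤ Z.dim, PoleFormula Φ σ Z j) ∧
    ∀ U : 𝒱.Obj, HasSlopes Φ ι 𝓛 U → RiemannHyp Φ σ U → RiemannHyp Φ σ (Z.prod U) ∧
      ∃ δ : ℕ → ℕ, (∀ j ≤ U.dim, PoleDefect Φ σ U j (δ j)) ∧ ∀ c ≤ (Z.prod U).dim,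
      numRank ops (Z.prod U) c = conv Z.dim U.dim (numRank ops Z) (numRank ops U) c ∧
      PoleDefect Φ σ (Z.prod U) c (conv Z.dim U.dim (numRank ops Z) δ c) ∧
      (PoleFormula Φ σ (Z.prod U) c ↔ ∀ i ≤ Z.dim, ∀ j ≤ U.dim, i + j = c →
        numRank ops Z i ≠ 0 → PoleFormula Φ σ U j) := by
  have hp := (Fact.out : p.Prime).one_lt
  have hT : ∀ i, HasWeilNumber Φ (X i) (e i) (α i) := fun i =>
    weilNumber_noRel (hR i) (hX i) (hX2 i)
  have hTT := tateTimesP_fam hT hZ (famCond_noRel hR hL₀ h𝓛 hE)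
  have hPpow : ∀ (ν : W.K) (n : ℕ), 0 < n → IsSlopeProduct ι 𝓛 ν → IsSlopeProduct ι 𝓛 (ν ^ n) :=
    fun ν n _ h => inM_pow ν n h
  have hD := homEqNum_of_tateTimesP hp hTT (inM_one _)
  have hEZ : EigRH Φ σ Z := eigRH_copies (fun i => (hR i).unitary) hX hZ
  have hRZ : RiemannHyp Φ σ Z := riemannHyp_of_eig hEZ
  refine ⟨hRZ, fun j hj => ?_, fun U hU hRU => ?_⟩
  · rw [pole_iff_tate hp hRZ hj]
    exact ⟨Pool.Agent.Y103.Sh.tateIn_of hTT (inM_one _) j, hD j hj⟩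
  · have hRX : RiemannHyp Φ σ (Z.prod U) :=
      riemannHyp_of_eig (eigRH_prod hEZ (eigRH_of_riemannHyp hRU))
    exact ⟨hRX, defects_of_tateTimesP hp hTT (inM_one _) hPpow hU hRU hRX⟩

end Pool.Agent.V1141.SL
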