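import Pool.Agent.V1141.SL.Core
import Pool.Agent.W517.K3.Circ

/-!
# Relations modulo a prime number, fixed by a group of prime power order
-/

set_option autoImplicit false
set_option linter.unusedSectionVars false

namespace Pool.Agent.V1141.SL

open Finset

theorem eq_one_of_ne : ∀ z : ZMod 2, z ≠ 0 → z = 1 := by decide

variable {G X : Type*} [Group G] [MulAction G X] [Fintype X] {c : X → X} {v : X → ℝ}

section modp

variable (hS : Slp G c v)
include hS

/-- fixed relations modulo `ℓ`, on a subset -/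
theorem exists_fixed {ℓ : ℕ} [hℓ : Fact ℓ.Prime] (Q : Subgroup G) [Finite Q] (hQ : IsPGroup ℓ Q)
    (A : Set X) (hA : ∀ g ∈ Q, ∀ x, g • x ∈ A ↔ x ∈ A)
    {n : X → ℤ} (hn : Rel G c v n) {x₀ : X} (hxA : x₀ ∈ A) (hx₀ : (n x₀ : ZMod ℓ) ≠ 0) :
    ∃ n' : X → ℤ, Rel G c v n' ∧ (∃ x ∈ A, (n' x : ZMod ℓ) ≠ 0) ∧
      ∀ g ∈ Q, ∀ x ∈ A, (n' (g • x) : ZMod ℓ) = n' x := by
  classical
  let N : AddSubgroup (X → ZMod ℓ) :=
    { carrier := {f | ∃ n : X → ℤ, Rel G c v n ∧ ∀ x, f x = if x ∈ A then (n x : ZMod ℓ) else 0}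
      add_mem' := by
        rintro f f' ⟨n, hn, h⟩ ⟨n', hn', h'⟩
        refine ⟨_, hn.add hn', fun x => ?_⟩
        rw [Pi.add_apply, h, h']
        split_ifs <;> simp
      zero_mem' := ⟨_, Rel.zero, fun x => by simp⟩
      neg_mem' := by
        rintro f ⟨n, hn, h⟩
        refine ⟨_, hn.neg, fun x => ?_⟩
        rw [Pi.neg_apply, h]
        split_ifs <;> simp }
  let act : MulAction Q N :=
    { smul := fun g f => ⟨fun x => f.1 (g⁻¹ • x), by
        obtain ⟨n, hn, h⟩ := f.2
        refine ⟨fun x => n (((g⁻¹ : Q) : G) • x), hn.translate hS _, fun x => ?_⟩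
        have h1 : f.1 (g⁻¹ • x) = if ((g⁻¹ : Q) : G) • x ∈ A then
          (n (((g⁻¹ : Q) : G) • x) : ZMod ℓ) else 0 := h _
        change f.1 (g⁻¹ • x) = if x ∈ A then ((n (((g⁻¹ : Q) : G) • x) : ℤ) : ZMod ℓ) else 0
        rw [h1]
        have h2 := hA ((g⁻¹ : Q) : G) (g⁻¹).2 x
        by_cases h3 : x ∈ A
        · rw [if_pos h3, if_pos (h2.2 h3)]
        · rw [if_neg h3, if_neg (fun h4 => h3 (h2.1 h4))]⟩
      one_smul := by
        intro f
        apply Subtype.ext
        funext x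
        change f.1 ((1 : Q)⁻¹ • x) = f.1 x
        rw [inv_one, one_smul]
      mul_smul := by
        intro g g' f
        apply Subtype.ext
        funext x
        change f.1 ((g * g')⁻¹ • x) = f.1 (g'⁻¹ • (g⁻¹ • x))
        rw [mul_inv_rev, mul_smul] }
  have hfin : Finite N := inferInstance
  let f₀ : N := ⟨fun x => if x ∈ A then (n x : ZMod ℓ) else 0, n, hn, fun _ => rfl⟩
  have hf₀ : f₀ ≠ 0 := fun h => hx₀ (by
    have h1 := congrFun (congrArg Subtype.val h) x₀
    change (if x₀ ∈ A then (n x₀ : ZMod ℓ) else 0) = 0 at h1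
    rwa [if_pos hxA] at h1)
  have hord : addOrderOf f₀ = ℓ := by
    apply addOrderOf_eq_prime
    · apply Subtype.ext
      funext y
      change (ℓ • f₀.1) y = 0
      rw [Pi.smul_apply, nsmul_eq_mul, CharP.cast_eq_zero, zero_mul]
    · exact hf₀
  have hdvd : ℓ ∣ Nat.card N := by
    have := addOrderOf_dvd_natCard f₀
    rwa [hord] at this
  have h0 : (0 : N) ∈ MulAction.fixedPoints Q N := by
    intro g
    apply Subtype.ext
    funext y
    rfl
  obtain ⟨f, hf, hne⟩ := hQ.exists_fixed_point_of_prime_dvd_card_of_fixed_point N hdvd h0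
  have hfix : ∀ (g : Q) y, f.1 (g⁻¹ • y) = f.1 y := by
    intro g y
    exact congrFun (congrArg Subtype.val (hf g)) y
  obtain ⟨n', hn', h'⟩ := f.2
  refine ⟨n', hn', ?_, ?_⟩
  · by_contra hcon
    push Not at hcon
    apply hne
    apply Subtype.ext
    funext y
    rw [h' y]
    by_cases h3 : y ∈ A
    · rw [if_pos h3, hcon y h3]
      rfl
    · rw [if_neg h3]
      rfl
  · intro g hg x hx
    have h1 : f.1 x = (n' x : ZMod ℓ) := by rw [h', if_pos hx]
    have h2 : f.1 (g • x) = (n' (g • x) : ZMod ℓ) := by rw [h', if_pos ((hA g hg x).2 hx)]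
    rw [← h1, ← h2]
    have h3 := hfix ⟨g, hg⟩ (g • x)
    rw [← h3]
    change f.1 ((g⁻¹ : G) • g • x) = f.1 x
    rw [inv_smul_smul]

omit hS in
/-- infinite descent -/
theorem zero_of_dvd {ℓ : ℕ} (hℓ : 1 < ℓ)
    (h : ∀ n : X → ℤ, Rel G c v n → ∀ x, (ℓ : ℤ) ∣ n x) {n : X → ℤ} (hn : Rel G c v n) (x : X) :
    n x = 0 := by
  have hdesc : ∀ (N : ℕ) (n : X → ℤ), Rel G c v n → ∀ x, (n x).natAbs ≤ N → n x = 0 := by
    intro N
    induction N with
    | zero =>
      intro n _ x h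
      omega
    | succ N ih =>
      intro n hn x hN
      by_contra hne
      choose w hw using h n hn
      have hℓ0 : (ℓ : ℤ) ≠ 0 := by positivity
      have hrel : Rel G c v w := by
        refine ⟨fun y => ?_, fun g => ?_⟩
        · have h1 := hn.1 y
          rw [hw y, hw (c y), ← mul_neg] at h1
          exact mul_left_cancel₀ hℓ0 h1
        · have h1 := hn.2 g
          have h2 : ∀ y, (n y : ℝ) * v (g • y) = ℓ * (w y * v (g • y)) := by
            intro y
            rw [hw y]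
            push_cast
            ring
          simp only [h2] at h1
          rw [← Finset.mul_sum] at h1
          have hℓ0' : (ℓ : ℝ) ≠ 0 := by positivity
          exact (mul_eq_zero.1 h1).resolve_left hℓ0'
      have h3 := ih w hrel x (by
        rw [hw x, Int.natAbs_mul, Int.natAbs_natCast] at hN
        have h4 : w x ≠ 0 := by
          intro h4
          rw [hw x, h4, mul_zero] at hne
          exact hne rfl
        have h5 : 0 < (w x).natAbs := Int.natAbs_pos.2 h4
        nlinarith)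
      apply hne
      rw [hw x, h3, mul_zero]
  exact hdesc _ n hn x le_rfl

/-- **Relations vanish modulo `ℓ`**: the number of points in `A` is twice a power of `ℓ`, a group
`H` is transitive on `A`, the values are integral multiples `w x` of `u > 0`, divisible by `ℓ`
outside `A`, and the sum of the positive `w x` over `A` is odd, and less than `ℓ` if `ℓ ≠ 2`. -/
theorem zero_prime_power [Finite G] [DecidableEq X] {ℓ k : ℕ} [hℓ : Fact ℓ.Prime] {u : ℝ}
    (hu : 0 < u) {w : X → ℤ} (hw : ∀ x, v x = w x * u) (A : Finset X) (H : Subgroup G)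
    (hH0 : ∀ h ∈ H, ∀ x ∈ A, h • x ∈ A) (hHt : ∀ x ∈ A, ∀ y ∈ A, ∃ h ∈ H, h • x = y)
    (hcA : ∀ x ∈ A, c x ∈ A) (hcard : A.card = 2 * ℓ ^ k) (hout : ∀ x ∉ A, (ℓ : ℤ) ∣ w x)
    (hodd : Odd (∑ x ∈ A.filter (fun x => 0 < w x), w x))
    (hsmall : ℓ = 2 ∨ ∑ x ∈ A.filter (fun x => 0 < w x), w x < ℓ)
    {n : X → ℤ} (hn : Rel G c v n) (x : X) : n x = 0 := by
  classical
  refine zero_of_dvd hℓ.out.one_lt ?_ hn x
  clear hn x n
  intro n hn x
  by_contra hndvd
  -- move the point to `A`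
  have hAne : A.Nonempty := by
    rw [← Finset.card_pos, hcard]
    have := hℓ.out.pos
    positivity
  obtain ⟨a, ha⟩ := hAne
  obtain ⟨g₀, hg₀⟩ := hS.trans a x
  have hn₁ := hn.translate hS g₀
  have hne₁ : (((fun y => n (g₀ • y)) a : ℤ) : ZMod ℓ) ≠ 0 := by
    change ((n (g₀ • a) : ℤ) : ZMod ℓ) ≠ 0
    rw [hg₀, Ne, ZMod.intCast_zmod_eq_zero_iff_dvd]
    exact hndvd
  obtain ⟨Q⟩ : Nonempty (Sylow ℓ H) := inferInstance
  let Q' : Subgroup G := (Q : Subgroup H).map H.subtype
  have hQ'H : Q' ≤ H := by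
    rintro _ ⟨g, -, rfl⟩
    exact g.2
  have hQ'p : IsPGroup ℓ Q' := Q.isPGroup'.map H.subtype
  have hAiff : ∀ g ∈ Q', ∀ x, g • x ∈ (A : Set X) ↔ x ∈ (A : Set X) := by
    intro g hg x
    constructor
    · intro h
      have h1 := hH0 g⁻¹ (H.inv_mem (hQ'H hg)) _ h
      rwa [inv_smul_smul] at h1
    · intro h
      exact hH0 g (hQ'H hg) x h
  obtain ⟨n', hn', ⟨x₁, hx₁A, hx₁⟩, hinv⟩ := exists_fixed hS Q' hQ'p (A : Set X) hAiff hn₁
    (by exact_mod_cast ha) hne₁
  clear hn₁ hne₁ hn hndvd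
  have hx₁A' : x₁ ∈ A := by exact_mod_cast hx₁A
  -- orbits
  have hHorb : ∀ y ∈ A, MulAction.orbit H y = (A : Set X) := by
    intro y hy
    ext z
    constructor
    · rintro ⟨g, rfl⟩
      exact_mod_cast hH0 g g.2 y hy
    · intro hz
      obtain ⟨h, hh, rfl⟩ := hHt y hy z (by exact_mod_cast hz)
      exact ⟨⟨h, hh⟩, rfl⟩
  have hHcard : ∀ y ∈ A, Nat.card (MulAction.orbit H y) = 2 * ℓ ^ k := by
    intro y hy
    rw [hHorb y hy, ← hcard, Nat.card_coe_set_eq, Set.ncard_coe_finset]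
  have horbQ : ∀ y : X, MulAction.orbit Q' y = MulAction.orbit Q y := by
    intro y
    ext z
    constructor
    · rintro ⟨⟨_, ⟨g, hg, rfl⟩⟩, rfl⟩
      exact ⟨⟨g, hg⟩, rfl⟩
    · rintro ⟨g, rfl⟩
      exact ⟨⟨((g : H) : G), ⟨(g : H), g.2, rfl⟩⟩, rfl⟩
  have hsub : ∀ y ∈ A, MulAction.orbit Q' y ⊆ (A : Set X) := by
    rintro y hy _ ⟨g, rfl⟩
    exact_mod_cast hH0 (g : G) (hQ'H g.2) y hy
  have hcast : ∀ f : X → ℤ, ((∑ x ∈ univ.filter (fun x => 0 < w x), f x : ℤ) : ZMod ℓ) =
      ((∑ x ∈ univ.filter (fun x => 0 < w x), f x : ℤ) : ZMod ℓ) := fun _ => rfl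
  -- the relation modulo `ℓ`
  have hmod : ((∑ x ∈ A.filter (fun x => 0 < w x), n' x * w x : ℤ) : ZMod ℓ) = 0 := by
    have h1 := rel_sum hS hn' 1
    have h2 : univ.filter (fun x => 0 < v x) = univ.filter (fun x => 0 < w x) := by
      ext y
      simp only [mem_filter, mem_univ, true_and]
      rw [hw y]
      constructor
      · intro h
        by_contra hcon
        have h3 : (w y : ℝ) ≤ 0 := by exact_mod_cast not_lt.1 hcon
        nlinarith
      · intro h
        have h3 : (0 : ℝ) < w y := by exact_mod_cast h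
        positivity
    rw [h2] at h1
    have h3 : ((∑ x ∈ univ.filter (fun x => 0 < w x), n' x * w x : ℤ) : ℝ) * u = 0 := by
      rw [← h1]
      push_cast
      rw [Finset.sum_mul]
      refine Finset.sum_congr rfl fun y _ => ?_
      rw [one_smul, hw y]
      ring
    have h4 : (∑ x ∈ univ.filter (fun x => 0 < w x), n' x * w x : ℤ) = 0 := by
      exact_mod_cast (mul_eq_zero.1 h3).resolve_right hu.ne'
    have h5 : univ.filter (fun x => 0 < w x) = A.filter (fun x => 0 < w x) ∪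
        (univ \ A).filter (fun x => 0 < w x) := by
      ext y
      simp only [mem_filter, mem_union, mem_sdiff, mem_univ, true_and]
      tauto
    have h6 : Disjoint (A.filter (fun x => 0 < w x)) ((univ \ A).filter (fun x => 0 < w x)) := by
      rw [Finset.disjoint_left]
      intro y hy hy'
      simp only [mem_filter, mem_sdiff, mem_univ, true_and] at hy hy'
      exact hy'.1 hy.1
    rw [h5, Finset.sum_union h6] at h4
    have h7 : ((∑ x ∈ (univ \ A).filter (fun x => 0 < w x), n' x * w x : ℤ) : ZMod ℓ) = 0 := by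
      rw [Int.cast_sum]
      refine Finset.sum_eq_zero fun y hy => ?_
      simp only [mem_filter, mem_sdiff, mem_univ, true_and] at hy
      rw [ZMod.intCast_zmod_eq_zero_iff_dvd]
      exact Dvd.dvd.mul_left (hout y hy.1) _
    have h8 : ((∑ x ∈ A.filter (fun x => 0 < w x), n' x * w x +
        ∑ x ∈ (univ \ A).filter (fun x => 0 < w x), n' x * w x : ℤ) : ZMod ℓ) =
        ((0 : ℤ) : ZMod ℓ) := congrArg _ h4
    rw [Int.cast_add, h7, add_zero, Int.cast_zero] at h8
    exact h8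
  by_cases h2 : ℓ = 2
  · -- the prime two
    subst h2
    have horb : MulAction.orbit Q' x₁ = (A : Set X) := by
      have h1 : 2 ^ (k + 1) ∣ Nat.card (MulAction.orbit Q x₁) :=
        W517.K3.dvd_card_orbit 2 (k + 1) Q x₁ (by
          rw [hHcard x₁ hx₁A', pow_succ, mul_comm])
      rw [← horbQ] at h1
      refine Set.eq_of_subset_of_ncard_le (hsub x₁ hx₁A') ?_ (Finset.finite_toSet A)
      have : Nonempty (MulAction.orbit Q' x₁) := ⟨⟨x₁, MulAction.mem_orbit_self x₁⟩⟩
      rw [Set.ncard_coe_finset, hcard, ← Nat.card_coe_set_eq]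
      have h3 := Nat.le_of_dvd Nat.card_pos h1
      rw [pow_succ] at h3
      omega
    have hall : ∀ y ∈ A, (n' y : ZMod 2) = 1 := by
      intro y hy
      have h3 : y ∈ MulAction.orbit Q' x₁ := by
        rw [horb]
        exact_mod_cast hy
      obtain ⟨g, rfl⟩ := h3
      change ((n' ((g : G) • x₁) : ℤ) : ZMod 2) = 1
      rw [hinv g g.2 x₁ hx₁A]
      exact eq_one_of_ne _ hx₁
    have h5 : ((∑ x ∈ A.filter (fun x => 0 < w x), n' x * w x : ℤ) : ZMod 2) =
        ((∑ x ∈ A.filter (fun x => 0 < w x), w x : ℤ) : ZMod 2) := by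
      rw [Int.cast_sum, Int.cast_sum]
      refine Finset.sum_congr rfl fun y hy => ?_
      rw [Int.cast_mul, hall y (Finset.mem_filter.1 hy).1, one_mul]
    rw [hmod] at h5
    have h6 := (ZMod.intCast_zmod_eq_zero_iff_dvd _ 2).1 h5.symm
    obtain ⟨t, ht⟩ := hodd
    rw [ht] at h6
    omega
  · -- odd primes
    have hlt := hsmall.resolve_left h2
    have hℓ2 : (2 : ZMod ℓ) ≠ 0 := by
      intro h
      have h3 : ((2 : ℕ) : ZMod ℓ) = 0 := by exact_mod_cast h
      rw [ZMod.natCast_eq_zero_iff] at h3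
      exact h2 ((Nat.prime_dvd_prime_iff_eq hℓ.out Nat.prime_two).1 h3)
    set b : ZMod ℓ := (n' x₁ : ZMod ℓ) with hb
    have hcx : c x₁ ∈ A := hcA _ hx₁A'
    have hv1 : ∀ y ∈ MulAction.orbit Q' x₁, (n' y : ZMod ℓ) = b := by
      rintro _ ⟨g, rfl⟩
      exact hinv g g.2 x₁ hx₁A
    have hv2 : ∀ y ∈ MulAction.orbit Q' (c x₁), (n' y : ZMod ℓ) = -b := by
      rintro _ ⟨g, rfl⟩
      change ((n' ((g : G) • c x₁) : ℤ) : ZMod ℓ) = -b
      rw [hinv g g.2 (c x₁) (by exact_mod_cast hcx), hn'.1]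
      push_cast
      rfl
    have hdis : Disjoint (MulAction.orbit Q' x₁) (MulAction.orbit Q' (c x₁)) := by
      rw [Set.disjoint_left]
      intro y hy hy'
      have h3 := hv1 y hy
      rw [hv2 y hy'] at h3
      have h4 : 2 * b = 0 := by
        rw [two_mul]
        nth_rewrite 1 [← h3]
        ring
      exact hx₁ ((mul_eq_zero.1 h4).resolve_left hℓ2)
    have hbig : ∀ y ∈ A, ℓ ^ k ≤ (MulAction.orbit Q' y).ncard := by
      intro y hy
      have h1 : ℓ ^ k ∣ Nat.card (MulAction.orbit Q y) :=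
        W517.K3.dvd_card_orbit ℓ k Q y (by
          rw [hHcard y hy]
          exact Dvd.intro_left 2 rfl)
      rw [← horbQ] at h1
      have : Nonempty (MulAction.orbit Q' y) := ⟨⟨y, MulAction.mem_orbit_self y⟩⟩
      rw [← Nat.card_coe_set_eq]
      exact Nat.le_of_dvd Nat.card_pos h1
    have hunion : MulAction.orbit Q' x₁ ∪ MulAction.orbit Q' (c x₁) = (A : Set X) := by
      refine Set.eq_of_subset_of_ncard_le (Set.union_subset (hsub _ hx₁A') (hsub _ hcx)) ?_
        (Finset.finite_toSet A)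
      rw [Set.ncard_union_eq hdis, Set.ncard_coe_finset, hcard]
      have h3 := hbig x₁ hx₁A'
      have h4 := hbig _ hcx
      omega
    have hpm : ∀ y ∈ A, ∃ ε : ℤ, (ε = 1 ∨ ε = -1) ∧ (n' y : ZMod ℓ) = ε * b := by
      intro y hy
      have h3 : y ∈ MulAction.orbit Q' x₁ ∪ MulAction.orbit Q' (c x₁) := by
        rw [hunion]
        exact_mod_cast hy
      rcases h3 with h3 | h3
      · exact ⟨1, Or.inl rfl, by rw [hv1 y h3]; simp⟩
      · exact ⟨-1, Or.inr rfl, by rw [hv2 y h3]; simp⟩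
    choose! ε hε hεn using hpm
    have h5 : ((∑ x ∈ A.filter (fun x => 0 < w x), n' x * w x : ℤ) : ZMod ℓ) =
        b * ((∑ x ∈ A.filter (fun x => 0 < w x), ε x * w x : ℤ) : ZMod ℓ) := by
      rw [Int.cast_sum, Int.cast_sum, Finset.mul_sum]
      refine Finset.sum_congr rfl fun y hy => ?_
      rw [Int.cast_mul, hεn y (Finset.mem_filter.1 hy).1]
      push_cast
      ring
    rw [hmod] at h5
    have h6 := (mul_eq_zero.1 h5.symm).resolve_left hx₁
    have h7 := (ZMod.intCast_zmod_eq_zero_iff_dvd _ ℓ).1 h6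
    -- the sum is odd and small
    have h8 : |∑ x ∈ A.filter (fun x => 0 < w x), ε x * w x| ≤
        ∑ x ∈ A.filter (fun x => 0 < w x), w x := by
      refine le_trans (Finset.abs_sum_le_sum_abs _ _) (Finset.sum_le_sum fun y hy => ?_)
      rw [Finset.mem_filter] at hy
      rw [abs_mul]
      rcases hε y hy.1 with h | h <;> rw [h] <;> simp [abs_of_pos hy.2]
    have h9 : ∀ B : Finset X, B ⊆ A → ∃ t : ℤ, ∑ x ∈ B, ε x * w x = ∑ x ∈ B, w x + 2 * t := by
      intro B
      induction B using Finset.induction_on with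
      | empty => intro _; exact ⟨0, by simp⟩
      | insert y B hy ih =>
        intro hB
        obtain ⟨t, ht⟩ := ih fun z hz => hB (Finset.mem_insert_of_mem hz)
        rw [Finset.sum_insert hy, Finset.sum_insert hy, ht]
        rcases hε y (hB (Finset.mem_insert_self y B)) with h | h <;> rw [h]
        · exact ⟨t, by ring⟩
        · exact ⟨t - w y, by ring⟩
    obtain ⟨t, ht⟩ := h9 _ (Finset.filter_subset (fun x => 0 < w x) A)
    obtain ⟨s, hs⟩ := hodd
    rw [ht] at h7 h8
    have h10 : (∑ x ∈ A.filter (fun x => 0 < w x), w x) + 2 * t = 0 := by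
      refine Int.eq_zero_of_abs_lt_dvd h7 ?_
      exact lt_of_le_of_lt h8 hlt
    omega

end modp

end Pool.Agent.V1141.SL
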