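import Pool.Agent.V1141.SL.Prime
import Pool.Agent.V1141.SL.ModL
import Pool.Agent.Y103.Hk.Mix
import Pool.Agent.V1141.SL.Defs

/-!
# The slopes of the conjugates of a number all of whose complex absolute values are one
-/

set_option autoImplicit false
set_option linter.unusedSectionVars false

namespace Pool.Agent.V1141.SL

open NumberField Module Pool.Agent.H485R3 Pool.Agent.TH121.KT Pool.Agent.Y103.Hk

section

variable {p a : ℕ} [Fact p.Prime] {E : Type} [Field E] [NumberField E] [IsCMField E] {α : E}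
  (hα : IsWeilUnit p a α)
include hα

theorem alpha_mul_conj : α * IsCMField.complexConj E α = 1 := by
  obtain ⟨φ⟩ : Nonempty (E →+* ℂ) := inferInstance
  apply φ.injective
  rw [map_mul, IsCMField.complexEmbedding_complexConj, map_one, Complex.mul_conj,
    Complex.normSq_eq_norm_sq, hα.unitary φ]
  norm_num

theorem alpha_ne : α ≠ 0 := by
  obtain ⟨φ⟩ : Nonempty (E →+* ℂ) := inferInstance
  intro h
  have h1 := hα.unitary φ
  rw [h, map_zero, norm_zero] at h1
  exact zero_ne_one h1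

/-- `α` is a unit outside `p` -/
theorem norm_eq_one_of_ne (l : ℕ) [Fact l.Prime] (hl : l ≠ p) (y : E →+* PadicAlgCl l) :
    ‖y α‖ = 1 := by
  have hmul := alpha_mul_conj hα
  have h5 : ‖((p : PadicAlgCl l) ^ a)‖ = 1 := by
    rw [norm_pow]
    have h4 : (p : PadicAlgCl l) = algebraMap ℚ_[l] (PadicAlgCl l) (p : ℚ_[l]) := by simp
    rw [h4, PadicAlgCl.norm_extends]
    have h5 : ‖(p : ℚ_[l])‖ = 1 := by
      rw [Padic.norm_natCast_eq_one_iff]
      exact (Nat.coprime_primes (Fact.out : l.Prime) (Fact.out : p.Prime)).2 hl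
    rw [h5, one_pow]
  have h1 : ‖y ((p : E) ^ a * α)‖ ≤ 1 :=
    norm_le_one_of_isIntegral l _ (hα.integral.map y.toIntAlgHom)
  have h2 : ‖y (IsCMField.complexConj E ((p : E) ^ a * α))‖ ≤ 1 :=
    norm_le_one_of_isIntegral l _
      ((hα.integral.map ((IsCMField.complexConj E : E →+* E).toIntAlgHom)).map y.toIntAlgHom)
  rw [map_mul, map_pow, map_natCast, norm_mul, h5, one_mul] at h1
  rw [map_mul, map_mul, map_pow, map_pow, map_natCast, map_natCast, norm_mul, h5, one_mul] at h2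
  have h3 : ‖y α‖ * ‖y (IsCMField.complexConj E α)‖ = 1 := by
    rw [← norm_mul, ← map_mul, hmul, map_one, norm_one]
  nlinarith [norm_nonneg (y α), norm_nonneg (y (IsCMField.complexConj E α))]

end

section

variable {E : Type} [Field E] [NumberField E] {L : Type} [Field L] [Algebra ℚ L]
  [FiniteDimensional ℚ L] [IsGalois ℚ L] {p : ℕ} [Fact p.Prime]

/-- the slope of an embedding -/
noncomputable def sl (α : E) (e : L →ₐ[ℚ] PadicAlgCl p) (φ : E →ₐ[ℚ] L) : ℝ :=
  Real.log ‖e (φ α)‖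

variable [IsCMField E] {a : ℕ} {α : E} (hα : IsWeilUnit p a α) (e : L →ₐ[ℚ] PadicAlgCl p)
include hα

theorem norm_pos (φ : E →ₐ[ℚ] L) : 0 < ‖e (φ α)‖ :=
  norm_pos_iff.2 ((map_ne_zero e).2 ((map_ne_zero φ).2 (alpha_ne hα)))

theorem sl_odd (φ : E →ₐ[ℚ] L) : sl α e (W517.K3.bar φ) = - sl α e φ := by
  have h1 : ‖e (φ α)‖ * ‖e (W517.K3.bar φ α)‖ = 1 := by
    rw [W517.K3.bar_apply, ← norm_mul, ← map_mul, ← map_mul, alpha_mul_conj hα, map_one, map_one,
      norm_one]
  unfold sl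
  rw [eq_inv_of_mul_eq_one_right h1, Real.log_inv]

/-- a number whose conjugates have total slope zero is a root of unity -/
theorem torsion_of_log {ι' : Type*} (B : Finset ι') (φ : ι' → (E →ₐ[ℚ] L)) (m : ι' → ℤ)
    (h : ∀ g : L ≃ₐ[ℚ] L, ∑ i ∈ B, (m i : ℝ) * sl α e (g • φ i) = 0) :
    ∃ r : ℕ, 0 < r ∧ (∏ i ∈ B, (φ i α) ^ m i) ^ r = 1 := by
  have hne : ∀ i, φ i α ≠ 0 := fun i => (map_ne_zero (φ i)).2 (alpha_ne hα)
  refine Exact.root_of_unity _ ?_ ?_
  · intro l _ e'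
    by_cases hl : l = p
    · subst hl
      obtain ⟨g, hg⟩ := exists_gal e e'
      refine le_of_eq ?_
      rw [hg, map_prod, map_prod, norm_prod]
      have h1 := h g
      have h2 : Real.log (∏ i ∈ B, ‖e (g ((φ i α) ^ m i))‖) = 0 := by
        rw [Real.log_prod, ← h1]
        · refine Finset.sum_congr rfl fun i _ => ?_
          rw [map_zpow₀, map_zpow₀, norm_zpow, Real.log_zpow]
          rfl
        · intro i _
          rw [norm_ne_zero_iff, map_ne_zero, map_ne_zero]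
          exact zpow_ne_zero _ (hne i)
      have h3 : 0 < ∏ i ∈ B, ‖e (g ((φ i α) ^ m i))‖ := by
        refine Finset.prod_pos fun i _ => ?_
        rw [norm_pos_iff, map_ne_zero, map_ne_zero]
        exact zpow_ne_zero _ (hne i)
      exact Real.eq_one_of_pos_of_log_eq_zero h3 h2
    · refine le_of_eq ?_
      rw [map_prod, norm_prod]
      refine Finset.prod_eq_one fun i _ => ?_
      rw [map_zpow₀, norm_zpow]
      have h1 := norm_eq_one_of_ne hα l hl ((e' : L →+* PadicAlgCl l).comp (φ i : E →+* L))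
      change ‖e' (φ i α)‖ = 1 at h1
      rw [h1, one_zpow]
  · intro ψ
    rw [map_prod, norm_prod]
    refine Finset.prod_eq_one fun i _ => ?_
    rw [map_zpow₀, norm_zpow]
    have h1 := hα.unitary ((ψ : L →+* ℂ).comp (φ i : E →+* L))
    change ‖ψ (φ i α)‖ = 1 at h1
    rw [h1, one_zpow]

/-- the embeddings, with the slopes -/
theorem slp_embeddings :
    Slp (L ≃ₐ[ℚ] L) (X := E →ₐ[ℚ] L) W517.K3.bar (sl α e) where
  cc := W517.K3.bar_bar
  cg := W517.K3.bar_smul
  ne := by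
    intro φ h
    apply IsCMField.complexConj_ne_one E
    refine AlgEquiv.ext fun x => ?_
    apply φ.toRingHom.injective
    exact AlgHom.congr_fun h x
  odd := sl_odd hα e
  trans := W517.K3.exists_smul_eq
  sep := by
    intro φ ψ h
    have hφ0 : φ α ≠ 0 := (map_ne_zero φ).2 (alpha_ne hα)
    have hψ0 : ψ α ≠ 0 := (map_ne_zero ψ).2 (alpha_ne hα)
    obtain ⟨r, hr, hroot⟩ := torsion_of_log hα e (Finset.univ : Finset (Fin 2)) ![φ, ψ] ![1, -1]
      (by
        intro g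
        rw [Fin.sum_univ_two]
        simp only [Matrix.cons_val_zero, Matrix.cons_val_one]
        rw [h g]
        push_cast
        ring)
    rw [Fin.prod_univ_two] at hroot
    simp only [Matrix.cons_val_zero, Matrix.cons_val_one, zpow_one, zpow_neg] at hroot
    rw [mul_pow, inv_pow, mul_inv_eq_one₀ (pow_ne_zero r hψ0), ← map_pow, ← map_pow] at hroot
    exact W517.K3.hom_ext_gen (hα.powers r hr) hroot

end

section block

variable {E : Type} [Field E] [NumberField E] [IsCMField E] {L : Type} [Field L]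
  [Algebra ℚ L] [FiniteDimensional ℚ L] [IsGalois ℚ L]

/-- the field of a block -/
def blockField (B : Finset (E →ₐ[ℚ] L)) (φ₀ : E →ₐ[ℚ] L) : IntermediateField ℚ E where
  carrier := {x | ∀ φ ∈ B, φ x = φ₀ x}
  mul_mem' := by
    intro x y hx hy φ hφ
    rw [map_mul, map_mul, hx φ hφ, hy φ hφ]
  add_mem' := by
    intro x y hx hy φ hφ
    rw [map_add, map_add, hx φ hφ, hy φ hφ]
  algebraMap_mem' := by
    intro r φ hφ
    rw [AlgHom.commutes, AlgHom.commutes]
  inv_mem' := by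
    intro x hx φ hφ
    rw [map_inv₀, map_inv₀, hx φ hφ]

/-- an embedding which agrees with `φ₀` on the field of the block is in the block -/
theorem mem_of_agree {c : (E →ₐ[ℚ] L) → (E →ₐ[ℚ] L)} {v : (E →ₐ[ℚ] L) → ℝ}
    {B : Finset (E →ₐ[ℚ] L)} (hB : NormBlock (L ≃ₐ[ℚ] L) c v B) {φ₀ : E →ₐ[ℚ] L}
    (hφ₀ : φ₀ ∈ B) {φ : E →ₐ[ℚ] L} (h : ∀ x ∈ blockField B φ₀, φ x = φ₀ x) : φ ∈ B := by
  let H : Subgroup (L ≃ₐ[ℚ] L) :=
    { carrier := {g | g • φ₀ ∈ B}
      mul_mem' := by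
        intro g k hg hk
        change (g * k) • φ₀ ∈ B
        rw [mul_smul]
        exact hB.block g φ₀ hφ₀ hg _ hk
      one_mem' := by
        change (1 : L ≃ₐ[ℚ] L) • φ₀ ∈ B
        rwa [one_smul]
      inv_mem' := by
        intro g hg
        change g⁻¹ • φ₀ ∈ B
        exact hB.block g⁻¹ (g • φ₀) hg (by rwa [inv_smul_smul]) φ₀ hφ₀ }
  have hH : ∀ g, g ∈ H ↔ g • φ₀ ∈ B := fun g => Iff.rfl
  -- the fixed field
  have h1 : IntermediateField.fixedField H ≤ φ₀.fieldRange := by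
    rw [← IsGalois.fixedField_fixingSubgroup φ₀.fieldRange]
    apply IntermediateField.fixedField_antitone
    intro g hg
    rw [hH]
    have h2 : g • φ₀ = φ₀ := by
      ext x
      rw [W517.K3.smul_apply]
      exact (IntermediateField.mem_fixingSubgroup_iff _ _).1 hg (φ₀ x) ⟨x, rfl⟩
    rwa [h2]
  obtain ⟨g, hg⟩ := W517.K3.exists_smul_eq φ₀ φ
  have h3 : g ∈ H := by
    rw [← IntermediateField.fixingSubgroup_fixedField H, IntermediateField.mem_fixingSubgroup_iff]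
    intro y hy
    obtain ⟨x, rfl⟩ := h1 hy
    have hx : x ∈ blockField B φ₀ := by
      intro ψ hψ
      obtain ⟨k, hk⟩ := W517.K3.exists_smul_eq φ₀ ψ
      have hk' : k ∈ H := by
        rw [hH, hk]
        exact hψ
      rw [← hk, W517.K3.smul_apply]
      exact hy ⟨k, hk'⟩
    have h4 := h x hx
    rw [← hg, W517.K3.smul_apply] at h4
    exact h4
  rw [← hg]
  exact h3

/-- the norm to the field of a block -/
theorem norm_block {c : (E →ₐ[ℚ] L) → (E →ₐ[ℚ] L)} {v : (E →ₐ[ℚ] L) → ℝ}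
    {B : Finset (E →ₐ[ℚ] L)} (hB : NormBlock (L ≃ₐ[ℚ] L) c v B) {φ₀ : E →ₐ[ℚ] L}
    (hφ₀ : φ₀ ∈ B)
    (hlift : ∀ {Ω : Type} [Field Ω] [Algebra ℚ Ω] (e : L →ₐ[ℚ] Ω) (σ : E →ₐ[ℚ] Ω),
      ∃ σ' : E →ₐ[ℚ] L, e.comp σ' = σ) (α : E) :
    φ₀ (Algebra.norm (blockField B φ₀) α : blockField B φ₀) = ∏ φ ∈ B, φ α := by
  classical
  let j : L →ₐ[ℚ] Qb := IsAlgClosed.lift
  let E₀ := blockField B φ₀
  let _ : Algebra E₀ Qb :=
    (((j : L →+* Qb).comp (φ₀ : E →+* L)).comp (algebraMap E₀ E)).toAlgebra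
  have halg : ∀ x : E₀, algebraMap E₀ Qb x = j (φ₀ (x : E)) := fun x => rfl
  have h1 := Algebra.norm_eq_prod_embeddings E₀ Qb α
  apply j.toRingHom.injective
  change j (φ₀ (Algebra.norm E₀ α : E₀)) = j (∏ φ ∈ B, φ α)
  rw [← halg, h1, map_prod]
  symm
  refine Finset.prod_bij (fun φ hφ => ({ (j : L →+* Qb).comp (φ : E →+* L) with
    commutes' := fun x => by
      change j (φ (x : E)) = j (φ₀ (x : E))
      rw [x.2 φ hφ] } : E →ₐ[E₀] Qb)) (fun φ hφ => Finset.mem_univ _)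
    (fun φ hφ φ' hφ' h => ?_) (fun σ _ => ?_) (fun φ hφ => rfl)
  · ext x
    apply j.toRingHom.injective
    exact DFunLike.congr_fun h x
  · obtain ⟨φ, hφ⟩ := hlift j (RingHom.toRatAlgHom (σ : E →+* Qb))
    have hφ' : ∀ x, j (φ x) = σ x := fun x => DFunLike.congr_fun hφ x
    refine ⟨φ, mem_of_agree hB hφ₀ fun x hx => ?_, ?_⟩
    · apply j.toRingHom.injective
      change j (φ x) = j (φ₀ x)
      rw [hφ']
      exact σ.commutes ⟨x, hx⟩
    · ext x
      exact hφ' x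

variable {p a : ℕ} [Fact p.Prime] {α : E}

theorem false_of_normBlock (hα : IsWeilUnit p a α) (e : L →ₐ[ℚ] PadicAlgCl p)
    (hlift : ∀ {Ω : Type} [Field Ω] [Algebra ℚ Ω] (e : L →ₐ[ℚ] Ω) (σ : E →ₐ[ℚ] Ω),
      ∃ σ' : E →ₐ[ℚ] L, e.comp σ' = σ) (hN : NoNormRelation α) {B : Finset (E →ₐ[ℚ] L)}
    (hB : NormBlock (L ≃ₐ[ℚ] L) W517.K3.bar (sl α e) B) : False := by
  classical
  obtain ⟨φ₀, hφ₀⟩ := hB.nonempty
  have hconj : ∃ x ∈ blockField B φ₀, IsCMField.complexConj E x ≠ x := by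
    by_contra hno
    push Not at hno
    refine hB.disj φ₀ hφ₀ (mem_of_agree hB hφ₀ fun x hx => ?_)
    rw [W517.K3.bar_apply, hno x hx]
  have hnorm := norm_block hB hφ₀ hlift α
  obtain ⟨s, hs, hroot⟩ := torsion_of_log hα e B (fun φ => φ) (fun _ => 1) (by
    intro g
    rw [← hB.zero g]
    refine Finset.sum_congr rfl fun φ _ => ?_
    push_cast
    ring)
  simp only [zpow_one] at hroot
  refine hN _ hconj s hs ?_
  have h2 : φ₀ (((Algebra.norm (blockField B φ₀) α : blockField B φ₀) : E) ^ s) = φ₀ 1 := by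
    rw [map_pow, hnorm, hroot, map_one]
  have h3 := φ₀.toRingHom.injective h2
  apply Subtype.ext
  exact h3

end block

section norel

variable {p a : ℕ} [Fact p.Prime] {E : Type} [Field E] [NumberField E] [IsCMField E] {α : E}

/-- **The criterion**: relations between the translates of the slope function vanish. -/
theorem noRel_of (hα : IsWeilUnit p a α) (ι : Qb →+* PadicAlgCl p)
    (key : ∀ (L : Type) [Field L] [Algebra ℚ L] [FiniteDimensional ℚ L] [IsGalois ℚ L]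
      (e : L →ₐ[ℚ] PadicAlgCl p),
      (∀ {Ω : Type} [Field Ω] [Algebra ℚ Ω] (e : L →ₐ[ℚ] Ω) (σ : E →ₐ[ℚ] Ω),
        ∃ σ' : E →ₐ[ℚ] L, e.comp σ' = σ) → ∀ n : (E →ₐ[ℚ] L) → ℤ,
      Rel (L ≃ₐ[ℚ] L) W517.K3.bar (sl α e) n → ∀ φ, n φ = 0) : NoRel ι α := by
  refine ⟨hα.unitary, fun f hf hR σ₀ => ?_⟩
  obtain ⟨L, iF, iA, iFin, iGal, hlift'⟩ := Exact.exists_common' (fun _ : Unit => E)
  have hlift : ∀ {Ω' : Type} [Field Ω'] [Algebra ℚ Ω'] (e : L →ₐ[ℚ] Ω') (σ : E →ₐ[ℚ] Ω'),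
      ∃ σ' : E →ₐ[ℚ] L, e.comp σ' = σ := fun e σ => hlift' e () σ
  let j : L →ₐ[ℚ] Qb := IsAlgClosed.lift
  let e : L →ₐ[ℚ] PadicAlgCl p := RingHom.toRatAlgHom (ι.comp (j : L →+* Qb))
  have he : ∀ x, e x = ι (j x) := fun x => rfl
  -- embeddings
  let T : (E →ₐ[ℚ] L) → (E →+* Qb) := fun φ => (j : L →+* Qb).comp (φ : E →+* L)
  have hT : Function.Bijective T := by
    constructor
    · intro φ φ' h
      ext x
      apply j.toRingHom.injective
      exact RingHom.congr_fun h x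
    · intro σ
      obtain ⟨φ, hφ⟩ := hlift j (RingHom.toRatAlgHom σ)
      refine ⟨φ, ?_⟩
      ext x
      exact AlgHom.congr_fun hφ x
  -- the relation
  have hrel : Rel (L ≃ₐ[ℚ] L) W517.K3.bar (sl α e) fun φ => f (T φ) := by
    refine ⟨fun φ => hf (T φ), fun g => ?_⟩
    have hNF : NumberField L := by
      refine @NumberField.mk L _ ?_ ?_
      · exact charZero_of_injective_algebraMap (algebraMap ℚ L).injective
      · convert iFin
        exact Subsingleton.elim _ _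
    obtain ⟨g', hg'⟩ := exists_act_eq (K := L) (j : L →+* Qb)
      ((j : L →+* Qb).comp (g : L →+* L))
    have hg'' : ∀ x, g' (j x) = j (g x) := fun x => RingHom.congr_fun hg' x
    have h1 := hR g'
    unfold RR at h1
    rw [← Equiv.sum_comp (Equiv.ofBijective T hT)] at h1
    rw [← h1]
    refine Finset.sum_congr rfl fun φ _ => ?_
    congr 1
    unfold sl
    rw [he, W517.K3.smul_apply]
    change _ = Real.log ‖ι (g' (j (φ α)))‖
    rw [hg'']
  obtain ⟨φ₁, rfl⟩ := hT.2 σ₀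
  exact key L e (fun e σ => hlift e σ) _ hrel φ₁

end norel

end Pool.Agent.V1141.SL
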