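import Pool.Agent.V1141.SL.Final

/-!
# The conjecture of Hodge type for products of varieties with Frobenius numbers without relations
-/

set_option autoImplicit false
set_option linter.unusedSectionVars false

open CategoryTheory AlgebraicGeometry NumberField

universe u v

namespace Pool.Agent.V1141.SL

open Pool.Agent.H914 Pool.Agent.H914.VarClass Pool.Agent.H914.VarClass.Obj
  Pool.Agent.H914.WeilCohomology Pool.Agent.H281R3.HT Pool.Agent.W552 Pool.Agent.W534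
  Pool.Agent.W458.RK Pool.Agent.W458.MF Pool.Agent.TH132.A Pool.Agent.W536.RR
  Pool.Agent.TH121.KT Pool.Agent.Y138.KC Pool.Agent.W290.MF Pool.Agent.Y138.KH
  Pool.Agent.Y103.Hk Pool.Agent.Y103.Sh Pool.Agent.Y103.Sq

variable {k : Type u} [Field k] {𝒱 : VarClass k} {ops : CycleOps 𝒱}
  {W : WeilCohomology.{u, v} ops} {p : ℕ} [Fact p.Prime] {Φ : FrobSystem W p}
  {ι : Qb →+* PadicAlgCl p}

/-- the pairs -/
theorem hodge_pair_noRel {P Q : Polarized 𝒱} (hPQ : P.X = Q.X) {e : ℕ} {E : Type} [Field E]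
    [NumberField E] [IsCMField E] {α : E} (hR : NoRel ι α)
    (hX : IsSpannedByNumber Φ P.X e α) (h : ∀ σ, OnLine W.K (letters Φ P.X e α σ))
    (hD : P.X.IsCyc 1 P.D) (hD' : Q.X.IsCyc 1 Q.D) (hHL : HardLefschetz W P.X P.D)
    (hHL' : HardLefschetz W Q.X Q.D) (hB : LefschetzB W P.X P.D) (hB' : LefschetzB W Q.X Q.D)
    (hH : HodgeType W P.X P.D) (hH' : HodgeType W Q.X Q.D) :
    HodgeType W (P.prod ops Q).X (P.prod ops Q).D := by
  obtain ⟨X, D⟩ := P
  obtain ⟨Y, D'⟩ := Q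
  simp only at hPQ
  subst hPQ
  exact hodge_pair_simple hR.unitary (fun s hs => gen_of_noRel hR s hs) hX.1 hX.sp h hD hD' hHL
    hHL' hB hB' hH hH'

variable {r : ℕ} {X : Fin r → 𝒱.Obj} {e : Fin r → ℕ} {E : Fin r → Type} [∀ i, Field (E i)]
  [∀ i, NumberField (E i)] [∀ i, IsCMField (E i)]
  {α : ∀ i, E i}

/-- **The conjecture of Hodge type for products of varieties with numbers without relations**, and
for their products with other varieties. -/
theorem main_hodge [IsAlgClosed W.K] (hR : ∀ i, NoRel ι (α i))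
    (hX : ∀ i, IsSpannedByNumber Φ (X i) (e i) (α i))
    {n : ℕ} {idx : Fin (n + 1) → Fin r} {D : ∀ a, (X (idx a)).Cycles}
    (hD : ∀ a, (X (idx a)).IsCyc 1 (D a))
    (hdeg : ∀ a, 0 < (X (idx a)).V.degCycle (divPow ops (D a) (X (idx a)).dim
      (X (idx a)).V.fundCycle))
    (hHL : ∀ a, HardLefschetz W (X (idx a)) (D a))
    (hH : ∀ a, HodgeType W (X (idx a)) (D a))
    (hX2 : ∀ i, (∀ σ, OnLine W.K (letters Φ (X i) (e i) (α i) σ)) ∨ (TateSquare Φ (X i) ∧
      ∀ a b, idx a = i → idx b = i →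
      HodgeType W ((⟨X (idx a), D a⟩ : Polarized 𝒱).prod ops ⟨X (idx b), D b⟩).X
        ((⟨X (idx a), D a⟩ : Polarized 𝒱).prod ops ⟨X (idx b), D b⟩).D))
    {𝓛 : Set (IntermediateField ℚ Qb)} {L₀ : Fin r → IntermediateField ℚ Qb}
    (hL₀ : ∀ i, IsStable (L₀ i) ∧ SmallIntersection (E i) (L₀ i) (copies idx i))
    (h𝓛 : ∀ i, ∀ L ∈ 𝓛, IsAllowed (E i) (L₀ i) L)
    (hE : ∀ i j, i < j → IsAllowed (E i) (L₀ i) (galoisClosure (E j))) :
    HomIsNum W (nest ops n (fun a => (⟨X (idx a), D a⟩ : Polarized 𝒱))).X ∧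
    HodgeType W (nest ops n (fun a => (⟨X (idx a), D a⟩ : Polarized 𝒱))).X
      (nest ops n (fun a => (⟨X (idx a), D a⟩ : Polarized 𝒱))).D ∧
    ∀ U : Polarized 𝒱, HasSlopes Φ ι 𝓛 U.X → U.X.IsCyc 1 U.D → HardLefschetz W U.X U.D →
      (HodgeType W ((nest ops n (fun a => (⟨X (idx a), D a⟩ : Polarized 𝒱))).prod ops U).X
        ((nest ops n (fun a => (⟨X (idx a), D a⟩ : Polarized 𝒱))).prod ops U).D ↔
        HodgeType W U.X U.D) := by
  have hp := (Fact.out : p.Prime).one_lt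
  have hT : ∀ i, HasWeilNumber Φ (X i) (e i) (α i) := fun i =>
    weilNumber_noRel (hR i) (hX i) ((hX2 i).imp_right And.left)
  have H : FamCond ι α (cnt idx) 𝓛 (fun i => galoisClosure (E i)) L₀ :=
    famCond_noRel hR hL₀ h𝓛 hE
  have hB := lefschetzB_fam hT hD hHL H
  have hH2 : ∀ a b, idx a = idx b →
      HodgeType W ((⟨X (idx a), D a⟩ : Polarized 𝒱).prod ops ⟨X (idx b), D b⟩).X
        ((⟨X (idx a), D a⟩ : Polarized 𝒱).prod ops ⟨X (idx b), D b⟩).D := by
    intro a b hab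
    rcases hX2 (idx a) with h | ⟨-, h⟩
    · exact hodge_pair_noRel (P := ⟨X (idx a), D a⟩) (Q := ⟨X (idx b), D b⟩) (congrArg X hab)
        (hR (idx a)) (hX (idx a)) h (hD a) (hD b) (hHL a) (hHL b) (hB a) (hB b) (hH a) (hH b)
    · exact h a b rfl hab.symm
  obtain ⟨h1, h2⟩ := hodge_fam hT hD hdeg hHL hH2 H
  exact ⟨homEqNum_of_tateTimesP hp (tateTimesP_fam hT (nest_copies n idx D) H) (inM_one _), h1, h2⟩

end Pool.Agent.V1141.SL
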