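import Pool.Agent.V1141.SL.Core
import Pool.Agent.W517.K3.Core4

/-!
# Relations between the translates of a real valued odd function: twice a prime number of points
-/

set_option autoImplicit false
set_option linter.unusedSectionVars false

namespace Pool.Agent.V1141.SL

open Finset Polynomial

/-- the shift of sequences -/
noncomputable def shift : Module.End ℚ (ℕ → ℝ) where
  toFun w j := w (j + 1)
  map_add' _ _ := rfl
  map_smul' _ _ := rfl

theorem shift_pow (i : ℕ) (w : ℕ → ℝ) (j : ℕ) : (shift ^ i) w j = w (j + i) := by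
  induction i generalizing w j with
  | zero => simp
  | succ i ih =>
    rw [pow_succ, Module.End.mul_apply, ih]
    change w (j + i + 1) = w (j + (i + 1))
    rw [add_assoc]

/-- **Circulant lemma** for real sequences. -/
theorem circ_real {ℓ : ℕ} (hℓ : ℓ.Prime) (a : ℕ → ℤ) (w : ℕ → ℝ) (hw : ∀ i, w (i + ℓ) = w i)
    (h : ∀ j, ∑ i ∈ Finset.range ℓ, (a i : ℝ) * w (j + i) = 0) {i₀ : ℕ} (hi₀ : i₀ < ℓ)
    (ha0 : a i₀ ≠ a 0) (i : ℕ) : w i = w 0 := by
  set A : ℚ[X] := ∑ i ∈ Finset.range ℓ, C (a i : ℚ) * X ^ i with hA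
  have hcoeff : ∀ i, A.coeff i = if i < ℓ then (a i : ℚ) else 0 := by
    intro i
    rw [hA, Polynomial.finsetSum_coeff]
    simp only [coeff_C_mul, coeff_X_pow]
    by_cases hi : i < ℓ
    · rw [if_pos hi, Finset.sum_eq_single i]
      · simp
      · intro b _ hb
        simp [Ne.symm hb]
      · intro hcon
        exact absurd (Finset.mem_range.2 hi) hcon
    · rw [if_neg hi]
      refine Finset.sum_eq_zero fun b hb => ?_
      have : i ≠ b := by
        intro hib
        rw [Finset.mem_range] at hb
        omega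
      simp [this]
  have : Fact ℓ.Prime := ⟨hℓ⟩
  have hcyc : ∀ i, (cyclotomic ℓ ℚ).coeff i = if i < ℓ then 1 else 0 := by
    intro i
    rw [cyclotomic_prime, Polynomial.finsetSum_coeff]
    simp only [coeff_X_pow]
    by_cases hi : i < ℓ
    · rw [if_pos hi, Finset.sum_eq_single i]
      · simp
      · intro b _ hb
        simp [Ne.symm hb]
      · intro hcon
        exact absurd (Finset.mem_range.2 hi) hcon
    · rw [if_neg hi]
      refine Finset.sum_eq_zero fun b hb => ?_
      have : i ≠ b := by
        intro hib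
        rw [Finset.mem_range] at hb
        omega
      simp [this]
  have hdegc : (cyclotomic ℓ ℚ).natDegree = ℓ - 1 := by
    rw [natDegree_cyclotomic, Nat.totient_prime hℓ]
  have hdegA : A.natDegree ≤ ℓ - 1 := by
    rw [natDegree_le_iff_coeff_eq_zero]
    intro N hN
    rw [hcoeff, if_neg (by have := hℓ.pos; omega)]
  -- the cyclotomic polynomial does not divide `A`
  have hndvd : ¬ cyclotomic ℓ ℚ ∣ A := by
    rintro ⟨Q, hQ⟩
    have hQC : ∃ b : ℚ, Q = C b := by
      by_cases hQ0 : Q = 0
      · exact ⟨0, by rw [hQ0, map_zero]⟩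
      · have h1 := natDegree_mul (cyclotomic_ne_zero ℓ ℚ) hQ0
        rw [← hQ, hdegc] at h1
        exact ⟨Q.coeff 0, eq_C_of_natDegree_eq_zero (by omega)⟩
    obtain ⟨b, rfl⟩ := hQC
    have hall : ∀ i < ℓ, (a i : ℚ) = b := by
      intro i hi
      have h1 := hcoeff i
      rw [if_pos hi, hQ, coeff_mul_C, hcyc, if_pos hi, one_mul] at h1
      exact h1.symm
    apply ha0
    have h1 := hall i₀ hi₀
    rw [← hall 0 hℓ.pos] at h1
    exact_mod_cast h1
  have hcop : IsCoprime (cyclotomic ℓ ℚ) A :=
    (EuclideanDomain.dvd_or_coprime _ _ (cyclotomic.irreducible_rat hℓ.pos)).resolve_left hndvd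
  obtain ⟨u, v, huv⟩ := hcop
  have hAw : aeval shift A w = 0 := by
    funext j
    rw [hA, map_sum, LinearMap.sum_apply, Finset.sum_apply]
    rw [Pi.zero_apply, ← h j]
    refine Finset.sum_congr rfl fun i _ => ?_
    rw [map_mul, aeval_C, map_pow, aeval_X, Module.End.mul_apply, Module.algebraMap_end_apply]
    rw [Pi.smul_apply, shift_pow]
    rw [Rat.smul_def]
    push_cast
    ring
  have hΦ : shift (aeval shift (cyclotomic ℓ ℚ) w) = aeval shift (cyclotomic ℓ ℚ) w := by
    have h1 : (X - 1) * (cyclotomic ℓ ℚ) = X ^ ℓ - 1 := by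
      rw [mul_comm]
      exact cyclotomic_prime_mul_X_sub_one ℚ ℓ
    have h2 := congrArg (fun P : ℚ[X] => aeval shift P w) h1
    simp only [map_mul, map_sub, aeval_X, map_one, map_pow] at h2
    rw [← sub_eq_zero]
    have h3 : (shift ^ ℓ - 1) w = 0 := by
      funext j
      rw [LinearMap.sub_apply, Pi.sub_apply, shift_pow, hw]
      simp
    rw [h3, Module.End.mul_apply, LinearMap.sub_apply] at h2
    exact h2
  have hw1 : w = aeval shift u (aeval shift (cyclotomic ℓ ℚ) w) := by
    have h2 := congrArg (fun P : ℚ[X] => aeval shift P w) huv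
    simp only [map_add, map_mul, map_one] at h2
    rw [LinearMap.add_apply, Module.End.mul_apply, Module.End.mul_apply, hAw, map_zero,
      add_zero] at h2
    exact h2.symm
  have hw2 : shift w = w := by
    conv_lhs => rw [hw1]
    have h3 : shift (aeval shift u (aeval shift (cyclotomic ℓ ℚ) w)) =
        aeval shift u (shift (aeval shift (cyclotomic ℓ ℚ) w)) := by
      have h4 : shift * aeval shift u = aeval shift u * shift := by
        have h5 : aeval shift (X * u) = aeval shift (u * X) := by rw [mul_comm]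
        rw [map_mul, map_mul, aeval_X] at h5
        exact h5
      exact LinearMap.congr_fun h4 _
    rw [h3, hΦ, ← hw1]
  induction i with
  | zero => rfl
  | succ i ih =>
    rw [← ih]
    exact congrFun hw2 i

variable {G X : Type*} [Group G] [MulAction G X] [Fintype X] {c : X → X} {v : X → ℝ}

section

variable (hS : Slp G c v)
include hS

/-- If all relations have constant absolute value, a relation comes from a norm relation. -/
theorem normBlock_abs [DecidableEq X]
    (habs : ∀ n : X → ℤ, Rel G c v n → ∀ x y, n x = n y ∨ n x = - n y)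
    {n : X → ℤ} (hn : Rel G c v n) {x₀ : X} (h0 : n x₀ ≠ 0) : ∃ B, NormBlock G c v B := by
  classical
  -- the translates
  have htr : ∀ g : G, (∀ x, n (g • x) = n x) ∨ (∀ x, n (g • x) = - n x) := by
    intro g
    have hrel : Rel G c v fun x => n (g • x) - n x := (hn.translate hS g).sub hn
    have h1 := habs _ hrel
    have h2 := habs _ hn
    by_cases hs : n (g • x₀) = n x₀
    · left
      intro x
      have h3 : n (g • x) - n x = n (g • x₀) - n x₀ ∨
          n (g • x) - n x = - (n (g • x₀) - n x₀) := h1 x x₀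
      omega
    · right
      intro x
      have h3 : n (g • x) - n x = n (g • x₀) - n x₀ ∨
          n (g • x) - n x = - (n (g • x₀) - n x₀) := h1 x x₀
      have h4 := h2 (g • x₀) x₀
      have h5 := h2 x x₀
      have h6 := h2 (g • x) x₀
      omega
  let B : Finset X := univ.filter fun y => n y = n x₀
  have hB : ∀ y, y ∈ B ↔ n y = n x₀ := by
    intro y
    simp [B]
  refine ⟨B, ⟨x₀, (hB x₀).2 rfl⟩, ?_, ?_, ?_⟩
  · intro g x hx hgx y hy
    rw [hB] at hx hgx hy ⊢
    rcases htr g with h | h
    · rw [h, hy]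
    · exfalso
      rw [h, hx] at hgx
      omega
  · intro x hx hcx
    rw [hB] at hx hcx
    rw [hn.1, hx] at hcx
    omega
  · intro g
    have h1 := hn.2 g
    have h2 : ∀ x, (n x : ℝ) * v (g • x) = n x₀ * ((if x ∈ B then v (g • x) else 0) -
        (if c x ∈ B then v (g • x) else 0)) := by
      intro x
      by_cases hx : x ∈ B
      · have hcx : c x ∉ B := by
          rw [hB] at hx ⊢
          rw [hn.1, hx]
          omega
        rw [if_pos hx, if_neg hcx, (hB x).1 hx]
        ring
      · have hx' : n x = - n x₀ := by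
          rw [hB] at hx
          exact (habs n hn x x₀).resolve_left hx
        have hcx : c x ∈ B := by
          rw [hB, hn.1, hx', neg_neg]
        rw [if_neg hx, if_pos hcx, hx']
        push_cast
        ring
    rw [Finset.sum_congr rfl fun x _ => h2 x, ← Finset.mul_sum, Finset.sum_sub_distrib] at h1
    have h3 : ∑ x, (if c x ∈ B then v (g • x) else 0) = - ∑ x, if x ∈ B then v (g • x) else 0 := by
      rw [← Finset.sum_neg_distrib]
      refine Fintype.sum_equiv ⟨c, c, hS.cc, hS.cc⟩ _ _ fun x => ?_
      change _ = -(if c x ∈ B then v (g • c x) else 0)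
      rw [← hS.cg, hS.odd]
      split_ifs <;> simp
    have h4 : ∑ x, (if x ∈ B then v (g • x) else 0) = ∑ x ∈ B, v (g • x) := by
      rw [← Finset.sum_filter]
      congr 1
      ext x
      simp
    rw [h3, h4] at h1
    have h5 : (n x₀ : ℝ) ≠ 0 := by exact_mod_cast h0
    have h6 := (mul_eq_zero.1 h1).resolve_left h5
    linarith

/-- there is a positive value -/
theorem exists_pos [Nonempty X] : ∃ x, 0 < v x := by
  by_contra hcon
  push Not at hcon
  have h0 : ∀ x, v x = 0 := by
    intro x
    have h1 := hcon x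
    have h2 := hcon (c x)
    rw [hS.odd] at h2
    linarith
  obtain ⟨x⟩ := ‹Nonempty X›
  exact hS.ne x (hS.sep _ _ fun g => by rw [h0, h0])

/-- **Twice a prime number of points**: a relation comes from a norm relation. -/
theorem normBlock_prime [Finite G] [DecidableEq X] {ℓ : ℕ} (hℓ : ℓ.Prime)
    (hX : Fintype.card X = 2 * ℓ) {n : X → ℤ} (hn : Rel G c v n) {x₀ : X} (h0 : n x₀ ≠ 0) :
    ∃ B, NormBlock G c v B := by
  classical
  have : Fact ℓ.Prime := ⟨hℓ⟩
  have : Nonempty X := ⟨x₀⟩
  let _ : Fintype G := Fintype.ofFinite G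
  by_cases hodd : ℓ = 2
  · -- two pairs
    obtain ⟨y, hy⟩ := exists_pos hS
    obtain ⟨x₁, hx₁, hmax⟩ := Finset.exists_max_image (univ.filter fun x => 0 < v x) v
      ⟨y, by simp [hy]⟩
    have hx₁' : 0 < v x₁ := by simpa using hx₁
    refine normBlock_dom hS x₁ hx₁' ?_ hn h0
    have hcard : (univ.filter fun x => 0 < v x).card ≤ 2 := by
      have h1 : (univ.filter fun x => v x < 0).card = (univ.filter fun x => 0 < v x).card := by
        refine Finset.card_bij (fun x _ => c x) (fun x hx => ?_) (fun x _ y _ h => c_inj hS h)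
          (fun y hy => ⟨c y, ?_, hS.cc y⟩)
        · simp only [mem_filter, mem_univ, true_and] at hx ⊢
          rw [hS.odd]
          linarith
        · simp only [mem_filter, mem_univ, true_and] at hy ⊢
          rw [hS.odd]
          linarith
      have h2 : Disjoint (univ.filter fun x => 0 < v x) (univ.filter fun x => v x < 0) := by
        rw [Finset.disjoint_left]
        intro x hx hx'
        simp only [mem_filter, mem_univ, true_and] at hx hx'
        linarith
      have h3 := Finset.card_le_univ
        ((univ.filter fun x => 0 < v x) ∪ (univ.filter fun x => v x < 0))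
      rw [Finset.card_union_of_disjoint h2, h1, hX, hodd] at h3
      omega
    calc ∑ x ∈ univ.filter (fun x => 0 < v x), v x
        ≤ ∑ _x ∈ univ.filter (fun x => 0 < v x), v x₁ := Finset.sum_le_sum hmax
      _ = (univ.filter fun x => 0 < v x).card * v x₁ := by
        rw [Finset.sum_const, nsmul_eq_mul]
      _ ≤ 2 * v x₁ := by
        refine mul_le_mul_of_nonneg_right ?_ hx₁'.le
        exact_mod_cast hcard
  -- an odd prime
  have ho : Odd ℓ := hℓ.odd_of_ne_two hodd
  obtain ⟨δ, -, hδa, k, hk⟩ := W517.K3.exists_cycle (⊤ : Subgroup G) ℓ x₀ (by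
    have h1 : MulAction.orbit (⊤ : Subgroup G) x₀ = Set.univ := by
      ext y
      simp only [Set.mem_univ, iff_true]
      obtain ⟨g, hg⟩ := hS.trans x₀ y
      exact ⟨⟨g, Subgroup.mem_top g⟩, hg⟩
    rw [h1, Nat.card_congr (Equiv.Set.univ X), Nat.card_eq_fintype_card, hX]
    exact Dvd.intro_left 2 rfl)
  obtain ⟨j, hj⟩ := W517.K3.period_pow hℓ hk x₀
  have hj0 : j ≠ 0 := by
    intro h
    rw [h, pow_zero] at hj
    apply hδa
    have := MulAction.pow_period_smul δ x₀
    rwa [hj, pow_one] at this
  have hodd' : Odd (MulAction.period δ x₀) := by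
    rw [hj]
    exact ho.pow
  have hdis := W517.K3.cycle_disj hS.cc hS.cg hS.ne δ x₀ hodd'
  obtain ⟨h1, h2⟩ := W517.K3.two_period_le hS.cc δ x₀ hdis univ (fun _ => mem_univ _)
    (fun _ => mem_univ _)
  rw [Finset.card_univ, hX] at h1 h2
  have h3 : MulAction.period δ x₀ = ℓ := by
    have h4 : ℓ ≤ ℓ ^ j := Nat.le_self_pow hj0 ℓ
    omega
  rw [h3] at h2
  have hall := h2 rfl
  have hper : δ ^ ℓ • x₀ = x₀ := by
    have := MulAction.pow_period_smul δ x₀
    rwa [h3] at this
  have hinj : ∀ i < ℓ, ∀ j < ℓ, δ ^ i • x₀ = δ ^ j • x₀ → i = j := by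
    have := W517.K3.period_inj δ x₀
    rwa [h3] at this
  have hstep : ∀ i, δ ^ (i + ℓ) • x₀ = δ ^ i • x₀ := by
    intro i
    rw [pow_add, mul_smul, hper]
  -- sums over the two cycles
  have hsum : ∀ F : X → ℝ, (∀ x, F (c x) = F x) →
      ∑ x, F x = 2 * ∑ i ∈ range ℓ, F (δ ^ i • x₀) := by
    intro F hF
    set C : Finset X := (range ℓ).image (fun i => δ ^ i • x₀) with hC
    set C' : Finset X := (range ℓ).image (fun i => c (δ ^ i • x₀)) with hC'
    have hdisj : Disjoint C C' := by
      rw [Finset.disjoint_left]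
      intro y hy hy'
      obtain ⟨i, -, rfl⟩ := Finset.mem_image.1 hy
      obtain ⟨j, -, hj⟩ := Finset.mem_image.1 hy'
      exact hdis i j hj.symm
    have h5 : (univ : Finset X) = C ∪ C' := by
      symm
      rw [Finset.eq_univ_iff_forall]
      intro y
      obtain ⟨i, hi, h | h⟩ := hall y (mem_univ y)
      · exact Finset.mem_union_left _ (Finset.mem_image.2 ⟨i, Finset.mem_range.2 hi, h.symm⟩)
      · exact Finset.mem_union_right _ (Finset.mem_image.2 ⟨i, Finset.mem_range.2 hi, h.symm⟩)
    rw [h5, Finset.sum_union hdisj, two_mul]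
    congr 1
    · rw [hC, Finset.sum_image]
      intro i hi j hj h
      exact hinj i (Finset.mem_range.1 hi) j (Finset.mem_range.1 hj) h
    · rw [hC', Finset.sum_image]
      · exact Finset.sum_congr rfl fun i _ => hF _
      · intro i hi j hj h
        exact hinj i (Finset.mem_range.1 hi) j (Finset.mem_range.1 hj) (c_inj hS h)
  -- relations are constant on the cycle
  have hcyc : ∀ n : X → ℤ, Rel G c v n → ∀ i < ℓ, n (δ ^ i • x₀) = n x₀ := by
    intro n hn i hi
    by_contra hcon
    have hconst : ∀ g : G, v (g • (δ • x₀)) = v (g • x₀) := by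
      intro g
      have h5 := circ_real hℓ (fun i => n (δ ^ i • x₀)) (fun i => v (g • (δ ^ i • x₀)))
        (fun i => by rw [hstep]) (fun j => by
          have h6 := hn.2 (g * δ ^ j)
          rw [hsum (fun x => (n x : ℝ) * v ((g * δ ^ j) • x)) (fun x => by
            rw [hn.1, ← hS.cg, hS.odd]
            push_cast
            ring)] at h6
          have h7 : ∀ i, (g * δ ^ j) • (δ ^ i • x₀) = g • (δ ^ (j + i) • x₀) := by
            intro i
            rw [mul_smul, ← mul_smul (δ ^ j), ← pow_add]
          simp only [h7] at h6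
          linarith) hi (by simpa using hcon) 1
      simpa using h5
    exact hδa (hS.sep _ _ hconst)
  have habs : ∀ n : X → ℤ, Rel G c v n → ∀ x, n x = n x₀ ∨ n x = - n x₀ := by
    intro n hn x
    obtain ⟨i, hi, rfl | rfl⟩ := hall x (mem_univ x)
    · exact Or.inl (hcyc n hn i hi)
    · right
      rw [hn.1, hcyc n hn i hi]
  refine normBlock_abs hS ?_ hn h0
  intro n hn x y
  have h6 := habs n hn x
  have h7 := habs n hn y
  omega

end

end Pool.Agent.V1141.SL
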